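import Pool.Agent.W180.RR.Proj

set_option autoImplicit false

/-!
The Ridout inequality for points of projective space: one statement for finitely many targets.
-/

namespace Pool.Agent.W180.RR

open Finset MvPolynomial
open Pool.Agent.W180.OP Pool.Agent.W180.TP

variable {K : Type} [Field K]

/-- powers of `t` -/
def pa {n : ℕ} (t : ℕ) : Fin n → ℤ := fun j => (t : ℤ) ^ (j : ℕ)

/-- powers of `t ^ n` -/
def pb {n : ℕ} (t : ℕ) : Fin n → ℤ := fun k => (t : ℤ) ^ (n * (k : ℕ))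

/-- the polynomial whose value at `t` is the form `pb t` -/
noncomputable def Q1 {n : ℕ} (y : Fin n → K) : Polynomial K :=
  ∑ k : Fin n, Polynomial.C (y k) * Polynomial.X ^ (n * (k : ℕ))

lemma eval_Q1 {n : ℕ} (y : Fin n → K) (t : ℕ) : (Q1 y).eval (t : K) = lin K (pb t) y := by
  unfold Q1 lin pb
  rw [Polynomial.eval_finsetSum]
  refine Finset.sum_congr rfl fun k _ => ?_
  rw [Polynomial.eval_mul, Polynomial.eval_C, Polynomial.eval_pow, Polynomial.eval_X]
  push_cast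
  ring

lemma Q1_ne {n : ℕ} {y : Fin n → K} (hy : y ≠ 0) : Q1 y ≠ 0 := by
  obtain ⟨k, hk⟩ := Function.ne_iff.1 hy
  intro h
  apply hk
  have h1 := congrArg (fun P => Polynomial.coeff P (n * (k : ℕ))) h
  simp only [Q1, Polynomial.finsetSum_coeff, Polynomial.coeff_C_mul_X_pow,
    Polynomial.coeff_zero] at h1
  rw [Finset.sum_eq_single k] at h1
  · simpa using h1
  · intro b _ hb
    rw [if_neg]
    intro h2
    apply hb
    have hn : 0 < n := Fin.pos k
    exact Fin.ext (Nat.eq_of_mul_eq_mul_left hn h2.symm)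
  · intro h2
    exact absurd (Finset.mem_univ _) h2

/-- the polynomial whose value at `t` is the cross product -/
noncomputable def Q2 {n : ℕ} (x y : Fin n → K) : Polynomial K :=
  ∑ j : Fin n, ∑ k : Fin n, Polynomial.C (x j * y k - x k * y j) *
    Polynomial.X ^ ((j : ℕ) + n * (k : ℕ))

lemma eval_Q2 {n : ℕ} (x y : Fin n → K) (t : ℕ) : (Q2 x y).eval (t : K) =
    lin K (pa t) x * lin K (pb t) y - lin K (pb t) x * lin K (pa t) y := by
  rw [lin_cross]
  unfold Q2 pa pb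
  rw [Polynomial.eval_finsetSum]
  refine Finset.sum_congr rfl fun j _ => ?_
  rw [Polynomial.eval_finsetSum]
  refine Finset.sum_congr rfl fun k _ => ?_
  rw [Polynomial.eval_mul, Polynomial.eval_C, Polynomial.eval_pow, Polynomial.eval_X]
  push_cast
  rw [pow_add]
  ring

lemma Q2_deg {n : ℕ} (x y : Fin n → K) : (Q2 x y).natDegree ≤ n + n * n := by
  unfold Q2
  refine Polynomial.natDegree_sum_le_of_forall_le _ _ fun j _ => ?_
  refine Polynomial.natDegree_sum_le_of_forall_le _ _ fun k _ => ?_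
  refine (Polynomial.natDegree_C_mul_X_pow_le _ _).trans ?_
  have h1 := j.2
  have h2 : n * (k : ℕ) ≤ n * n := Nat.mul_le_mul_left _ k.2.le
  omega

lemma Q2_ne {n : ℕ} {x y : Fin n → K} (hy : y ≠ 0) (h : ¬ ∃ c : K, x = c • y) : Q2 x y ≠ 0 := by
  obtain ⟨j, k, hjk⟩ : ∃ j k, x j * y k - x k * y j ≠ 0 := by
    by_contra hcon
    push Not at hcon
    apply h
    obtain ⟨k, hk⟩ := Function.ne_iff.1 hy
    refine ⟨x k / y k, ?_⟩
    funext j
    have h1 := hcon j k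
    rw [Pi.smul_apply, smul_eq_mul]
    have hk' : y k ≠ 0 := hk
    field_simp
    linear_combination h1
  intro h0
  apply hjk
  have h1 := congrArg (fun P => Polynomial.coeff P ((j : ℕ) + n * (k : ℕ))) h0
  simp only [Q2, Polynomial.finsetSum_coeff, Polynomial.coeff_C_mul_X_pow,
    Polynomial.coeff_zero] at h1
  have hn : 0 < n := Fin.pos k
  have huniq : ∀ j' k' : Fin n, (j : ℕ) + n * (k : ℕ) = (j' : ℕ) + n * (k' : ℕ) →
      j' = j ∧ k' = k := by
    intro j' k' he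
    have h2 : (j : ℕ) = j' := by
      have := congrArg (fun m => m % n) he
      simp only [Nat.add_mul_mod_self_left] at this
      rwa [Nat.mod_eq_of_lt j.2, Nat.mod_eq_of_lt j'.2] at this
    have h3 : (k : ℕ) = k' := by
      rw [h2] at he
      exact Nat.eq_of_mul_eq_mul_left hn (Nat.add_left_cancel he)
    exact ⟨Fin.ext h2.symm, Fin.ext h3.symm⟩
  rw [Finset.sum_eq_single j, Finset.sum_eq_single k] at h1
  · simpa using h1
  · intro k' _ hk'
    rw [if_neg]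
    intro he
    exact hk' (huniq j k' he).2
  · intro h2
    exact absurd (Finset.mem_univ _) h2
  · intro j' _ hj'
    refine Finset.sum_eq_zero fun k' _ => ?_
    rw [if_neg]
    intro he
    exact hj' (huniq j' k' he).1
  · intro h2
    exact absurd (Finset.mem_univ _) h2

theorem exists_good [CharZero K] {n : ℕ} (T : Finset (Fin n → K)) (hT : ∀ y ∈ T, y ≠ 0) :
    ∃ Θ : Finset ℕ, (∀ t ∈ Θ, ∀ y ∈ T, lin K (pb t) y ≠ 0) ∧
      ∀ x : Fin n → K, (∀ y ∈ T, ¬ ∃ c : K, x = c • y) → ∃ t ∈ Θ, ∀ y ∈ T,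
        lin K (pa t) x * lin K (pb t) y - lin K (pb t) x * lin K (pa t) y ≠ 0 := by
  classical
  -- roots as sets of naturals
  have hfin : ∀ P : Polynomial K, P ≠ 0 → {t : ℕ | P.eval (t : K) = 0}.Finite := by
    intro P hP
    have h1 : (P.rootSet K).Finite := Polynomial.rootSet_finite P K
    refine Set.Finite.of_finite_image (f := fun t : ℕ => (t : K)) (h1.subset ?_)
      (fun a _ b _ h => Nat.cast_injective h)
    rintro _ ⟨t, ht, rfl⟩
    rw [Polynomial.mem_rootSet]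
    refine ⟨hP, ?_⟩
    simpa [Polynomial.aeval_def] using ht
  have hbad : (⋃ y ∈ T, {t : ℕ | (Q1 y).eval (t : K) = 0}).Finite :=
    Set.Finite.biUnion T.finite_toSet fun y hy => hfin _ (Q1_ne (hT y hy))
  obtain ⟨Θ, hΘ1, hΘ2⟩ := (hbad.infinite_compl).exists_subset_card_eq (T.card * (n + n * n) + 1)
  refine ⟨Θ, fun t ht y hy => ?_, fun x hx => ?_⟩
  · have h1 := hΘ1 (Finset.mem_coe.2 ht)
    rw [Set.mem_compl_iff, Set.mem_iUnion₂] at h1
    push Not at h1
    have h2 := h1 y hy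
    rw [Set.mem_ofPred_eq, eval_Q1] at h2
    exact h2
  · by_contra hcon
    push Not at hcon
    have h1 : Θ ⊆ T.biUnion fun y => Θ.filter fun t : ℕ => (Q2 x y).eval (t : K) = 0 := by
      intro t ht
      obtain ⟨y, hy, h2⟩ := hcon t ht
      rw [Finset.mem_biUnion]
      refine ⟨y, hy, Finset.mem_filter.2 ⟨ht, ?_⟩⟩
      rw [eval_Q2]
      exact h2
    have h2 : ∀ y ∈ T, (Θ.filter fun t : ℕ => (Q2 x y).eval (t : K) = 0).card ≤ n + n * n := by
      intro y hy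
      have hQ := Q2_ne (hT y hy) (hx y hy)
      refine le_trans ?_ (Q2_deg x y)
      refine le_trans ?_ (Polynomial.card_roots' (Q2 x y))
      refine le_trans ?_ (Multiset.toFinset_card_le _)
      refine Finset.card_le_card_of_injOn (fun t : ℕ => (t : K)) ?_
        (fun a _ b _ h => Nat.cast_injective h)
      intro t ht
      rw [Finset.mem_coe, Finset.mem_filter] at ht
      rw [Finset.mem_coe, Multiset.mem_toFinset, Polynomial.mem_roots hQ]
      exact ht.2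
    have h3 := (Finset.card_le_card h1).trans (Finset.card_biUnion_le_card_mul _ _ _ h2)
    rw [hΘ2] at h3
    omega

/-- the Ridout inequality for points of projective space over `ℚ` and algebraic targets -/
theorem proj_all [NumberField K] {ι : Type} [Fintype ι] (S : Sys K ι) {n : ℕ}
    (T : Finset (Fin n → K)) (hT : ∀ y ∈ T, y ≠ 0) (ε : ℝ) (hε : 0 < ε) :
    ∃ C : ℝ, 0 ≤ C ∧ ∀ (y0 : Fin n → K) (y : ι → Fin n → K), y0 ∈ T → (∀ i, y i ∈ T) →
      ∀ x : Fin n → ℤ, Prim x → (∀ z ∈ T, ¬ ∃ c : K, ck K x = c • z) →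
      - Real.log (del S.f0 y0 (ck K x)) + ∑ i, - Real.log (del (S.fs i) (y i) (ck K x)) ≤
        (2 + ε) * Real.log (hgt x) + C := by
  classical
  obtain ⟨Θ, hΘ1, hΘ2⟩ := exists_good T hT
  have h1 : ∀ (t : Θ) (y0 : T) (y : ι → T), ∃ C : ℝ, 0 ≤ C ∧ ∀ x : Fin n → ℤ, Prim x →
      lin K (pa t.1) (ck K x) * lin K (pb t.1) y0.1 - lin K (pb t.1) (ck K x) *
        lin K (pa t.1) y0.1 ≠ 0 →
      (∀ i, lin K (pa t.1) (ck K x) * lin K (pb t.1) (y i).1 -
        lin K (pb t.1) (ck K x) * lin K (pa t.1) (y i).1 ≠ 0) →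
      - Real.log (del S.f0 y0.1 (ck K x)) + ∑ i, - Real.log (del (S.fs i) (y i).1 (ck K x)) ≤
        (2 + ε) * Real.log (hgt x) + C := fun t y0 y =>
    proj_one S (pa t.1) (pb t.1) y0.1 (fun i => (y i).1) (hΘ1 t.1 t.2 y0.1 y0.2)
      (fun i => hΘ1 t.1 t.2 _ (y i).2) ε hε
  choose C hC0 hC using h1
  refine ⟨∑ t, ∑ y0, ∑ y, C t y0 y, Finset.sum_nonneg fun t _ => Finset.sum_nonneg fun y0 _ =>
    Finset.sum_nonneg fun y _ => hC0 t y0 y, fun y0 y hy0 hy x hx hxT => ?_⟩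
  obtain ⟨t, ht, h2⟩ := hΘ2 (ck K x) hxT
  have h3 := hC ⟨t, ht⟩ ⟨y0, hy0⟩ (fun i => ⟨y i, hy i⟩) x hx (h2 y0 hy0) (fun i => h2 _ (hy i))
  refine h3.trans ?_
  have e1 : C ⟨t, ht⟩ ⟨y0, hy0⟩ (fun i => ⟨y i, hy i⟩) ≤ ∑ y, C ⟨t, ht⟩ ⟨y0, hy0⟩ y :=
    Finset.single_le_sum (f := fun y => C ⟨t, ht⟩ ⟨y0, hy0⟩ y) (fun _ _ => hC0 _ _ _)
      (Finset.mem_univ _)
  have e2 : ∑ y, C ⟨t, ht⟩ ⟨y0, hy0⟩ y ≤ ∑ y0, ∑ y, C ⟨t, ht⟩ y0 y :=
    Finset.single_le_sum (f := fun y0 => ∑ y, C ⟨t, ht⟩ y0 y)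
      (fun _ _ => Finset.sum_nonneg fun _ _ => hC0 _ _ _) (Finset.mem_univ _)
  have e3 : ∑ y0, ∑ y, C ⟨t, ht⟩ y0 y ≤ ∑ t, ∑ y0, ∑ y, C t y0 y :=
    Finset.single_le_sum (f := fun t => ∑ y0, ∑ y, C t y0 y)
      (fun _ _ => Finset.sum_nonneg fun _ _ => Finset.sum_nonneg fun _ _ => hC0 _ _ _)
      (Finset.mem_univ _)
  linarith

end Pool.Agent.W180.RR
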