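import Pool.Agent.W180.RR.Geo

set_option autoImplicit false

/-!
Assembly: rational points on a projective scheme over `ℚ` and few places.
-/

namespace Pool.Agent.W180.RR

open Finset MvPolynomial NumberField IsDedekindDomain
open Pool.Agent.W180.OP Pool.Agent.W180.TP
open scoped LinearAlgebra.Projectivization

/-- the part of an integer prime to `S` -/
noncomputable def sfree (S : Finset ℕ) (m : ℤ) : ℝ :=
  |(m : ℝ)| * ∏ ℓ ∈ S, (padicNorm ℓ (m : ℚ) : ℝ)

/-- base change -/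
noncomputable def bK (K : Type) [Field K] {n : ℕ} (P : MvPolynomial (Fin n) ℤ) :
    MvPolynomial (Fin n) K := MvPolynomial.map (Int.castRingHom K) P

lemma bK_hom (K : Type) [Field K] {n d : ℕ} {P : MvPolynomial (Fin n) ℤ}
    (h : P.IsHomogeneous d) : (bK K P).IsHomogeneous d := h.map _

lemma aeval_bK {K : Type} [Field K] {L : Type} [Field L] [Algebra K L] {n : ℕ}
    (P : MvPolynomial (Fin n) ℤ) (x : Fin n → L) : aeval x (bK K P) = aeval x P := by
  unfold bK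
  rw [aeval_def, eval₂_map, aeval_def]
  congr 1
  exact RingHom.ext_int _ _

lemma aeval_ck {K : Type} [Field K] {n : ℕ} (P : MvPolynomial (Fin n) ℤ) (x : Fin n → ℤ) :
    aeval (ck K x) (bK K P) = ((eval x P : ℤ) : K) := by
  rw [aeval_bK]
  have h1 : (algebraMap ℤ K) (aeval x P) = aeval (fun i => algebraMap ℤ K (x i)) P := by
    rw [← aeval_algebraMap_apply]
    rfl
  have h2 : aeval x P = eval x P := by
    rw [aeval_def, eval₂_eq_eval_map, Algebra.algebraMap_self, MvPolynomial.map_id]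
  rw [h2] at h1
  exact h1.symm

/-- the sum of the local heights -/
lemma sum_rho {K : Type} [Field K] [NumberField K] (S : Finset ℕ) (hS : ∀ ℓ ∈ S, ℓ.Prime)
    (Y : Sys K S)
    (hY : ∀ i (n : ℤ), Y.fs i (n : K) = (padicNorm i.1 (n : ℚ) : ℝ)) {n : ℕ} (d : ℕ)
    (P : MvPolynomial (Fin n) ℤ) {x : Fin n → ℤ} (hx : Prim x) (hP : eval x P ≠ 0) :
    ∑ o, - Real.log (rho (Y.fa o) d (bK K P) (ck K x)) =
      d * Real.log (hgt x) - Real.log (sfree S (eval x P)) := by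
  have hH := hgt_ge_one hx.ne
  have hp : ∀ i : S, (padicNorm i.1 ((eval x P : ℤ) : ℚ) : ℝ) ≠ 0 := by
    intro i
    have : Fact (i.1).Prime := ⟨hS i.1 i.2⟩
    have h1 : padicNorm i.1 ((eval x P : ℤ) : ℚ) ≠ 0 := padicNorm.nonzero (by exact_mod_cast hP)
    exact_mod_cast h1
  rw [Fintype.sum_option]
  have h0 : rho (Y.fa none) d (bK K P) (ck K x) = |((eval x P : ℤ) : ℝ)| / hgt x ^ d := by
    unfold rho
    rw [aeval_ck]
    show Y.f0 _ / nrm Y.f0 _ ^ d = _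
    rw [Y.f0i, nrm_f0]
  have hi : ∀ i : S, rho (Y.fa (some i)) d (bK K P) (ck K x) =
      (padicNorm i.1 ((eval x P : ℤ) : ℚ) : ℝ) := by
    intro i
    unfold rho
    rw [aeval_ck]
    show Y.fs i _ / nrm (Y.fs i) _ ^ d = _
    rw [nrm_fs Y hx, one_pow, div_one, hY]
  have hab : |((eval x P : ℤ) : ℝ)| ≠ 0 := by
    rw [abs_ne_zero]
    exact_mod_cast hP
  rw [h0]
  simp_rw [hi]
  rw [Real.log_div hab (pow_pos (by linarith) _).ne', Real.log_pow, Finset.sum_neg_distrib]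
  unfold sfree
  rw [← Finset.prod_coe_sort S (fun ℓ => (padicNorm ℓ ((eval x P : ℤ) : ℚ) : ℝ)),
    Real.log_mul hab (Finset.prod_ne_zero_iff.2 fun i _ => hp i), Real.log_prod fun i _ => hp i]
  ring

theorem fin_core {n q N μ : ℕ} {κ : Type} [Fintype κ] (G : κ → MvPolynomial (Fin n) ℤ)
    (g : κ → ℕ) (hG : ∀ k, (G k).IsHomogeneous (g k)) (F : Fin q → MvPolynomial (Fin n) ℤ)
    (d : Fin q → ℕ) (hF : ∀ i, (F i).IsHomogeneous (d i)) (hN : 1 ≤ N) (hNq : N ≤ q)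
    (K : Type) [Field K] [NumberField K]
    (hrat : ∀ J : Finset (Fin q), J.card = N → ∀ (L : Type) [Field L] [Algebra K L]
      (x : Fin n → L), x ≠ 0 → (∀ j ∈ J, aeval x (F j) = 0) → (∀ k, aeval x (G k) = 0) →
        ∃ (y : Fin n → K) (c : L), x = c • fun b => algebraMap K L (y b))
    (hred : ∀ J : Finset (Fin q), J.card = N → ∀ a,
      ∀ Q ∈ (Ideal.span (Set.range (Sum.elim (fun j : J => bK K (F j.1))
        (fun k => bK K (G k))))).radical ^ μ,
      ∃ M : ℕ, X a ^ M * Q ∈ Ideal.span (Set.range (Sum.elim (fun j : J => bK K (F j.1))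
        (fun k => bK K (G k)))))
    (S : Finset ℕ) (hS : ∀ ℓ ∈ S, ℓ.Prime) (ε : ℝ) (hε : 0 < ε) :
    ∃ (Y : Sys K S) (C : ℝ), (∀ i (n : ℤ), Y.fs i (n : K) = (padicNorm i.1 (n : ℚ) : ℝ)) ∧
      (∀ o, ∃ (p : Pl K) (s : ℝ), 0 < s ∧ ∀ x, Y.fa o x = av p x ^ s) ∧
      0 ≤ C ∧ ∀ x : Fin n → ℤ, Prim x → (∀ k, eval x (G k) = 0) → (∀ i, eval x (F i) ≠ 0) →
      ∃ U : Option S → ℝ, (∀ o, 0 ≤ U o) ∧ ∑ o, U o ≤ (2 + ε) * Real.log (hgt x) + C ∧
        ∀ o, ∀ J : Finset (Fin q), J.card = N → ∀ i ∈ J,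
          (∀ j ∈ J, rho (Y.fa o) (d j) (bK K (F j)) (ck K x) ≤
            rho (Y.fa o) (d i) (bK K (F i)) (ck K x)) →
          - Real.log (rho (Y.fa o) (d i) (bK K (F i)) (ck K x)) ≤ C + μ * U o := by
  classical
  obtain ⟨Y, w, v, s, hs, hw, hv, hY⟩ := exists_sys K S hS
  have hfa : ∀ o, ∃ (p : Pl K) (s : ℝ), 0 < s ∧ ∀ x, Y.fa o x = av p x ^ s := by
    rintro (_ | i)
    · refine ⟨Sum.inl w, 1, one_pos, fun x => ?_⟩
      rw [Real.rpow_one]
      show Y.f0 x = _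
      rw [hw]
      rfl
    · exact ⟨Sum.inr (v i), s i, hs i, fun x => hv i x⟩
  -- the common points
  have h1 : ∀ J : {J : Finset (Fin q) // J.card = N}, ∃ T : Finset (ℙ K (Fin n → K)),
      (∀ y ∈ T, ∃ i, eval y.rep (bK K (F i)) = 0) ∧ ∀ (L : Type) [Field L] [Algebra K L]
        (x : Fin n → L), x ≠ 0 → (∀ j ∈ J.1, aeval x (bK K (F j)) = 0) →
        (∀ k, aeval x (bK K (G k)) = 0) →
        ∃ y ∈ T, ∃ c : L, x = c • fun b => algebraMap K L (y.rep b) := by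
    intro J
    obtain ⟨T, hT1, hT2⟩ := finite_pts (Sum.elim (fun j : J.1 => bK K (F j.1))
      (fun k => bK K (G k))) (Sum.elim (fun j : J.1 => d j.1) g) (by
        rintro (i | k)
        · exact bK_hom K (hF i.1)
        · exact bK_hom K (hG k)) (by
        intro L _ _ x hx h
        refine hrat J.1 J.2 L x hx (fun j hj => ?_) fun k => ?_
        · rw [← aeval_bK (K := K)]
          exact h (Sum.inl ⟨j, hj⟩)
        · rw [← aeval_bK (K := K)]
          exact h (Sum.inr k))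
    refine ⟨T, fun y hy => ?_, fun L _ _ x hx ha hb => ?_⟩
    · have hne : J.1.Nonempty := by
        rw [← Finset.card_pos, J.2]
        exact hN
      obtain ⟨j, hj⟩ := hne
      exact ⟨j, hT1 y hy (Sum.inl ⟨j, hj⟩)⟩
    · refine hT2 L x hx ?_
      rintro (i | k)
      · exact ha i.1 i.2
      · exact hb k
  choose T hT1 hT2 using h1
  set TT : Finset (ℙ K (Fin n → K)) := Finset.univ.biUnion T with hTT
  have hTT0 : ∀ y ∈ TT, ∃ i, eval y.rep (bK K (F i)) = 0 := by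
    intro y hy
    rw [hTT, Finset.mem_biUnion] at hy
    obtain ⟨t, -, hyt⟩ := hy
    exact hT1 t y hyt
  obtain ⟨CU, hCU0, hCU⟩ := ridU Y TT ε hε
  have hloc : ∀ o, ∃ C : ℝ, 0 ≤ C ∧ ∀ x : Fin n → K, x ≠ 0 → (∀ k, aeval x (bK K (G k)) = 0) →
      (∀ i, aeval x (bK K (F i)) ≠ 0) → (∀ y ∈ TT, ¬ ∃ c : K, x = c • y.rep) →
      ∀ U : ℝ, 0 ≤ U → (∀ y ∈ TT, - Real.log (del (Y.fa o) y.rep x) ≤ U) →
      ∀ J : Finset (Fin q), J.card = N → ∀ i ∈ J,
        (∀ j ∈ J, rho (Y.fa o) (d j) (bK K (F j)) x ≤ rho (Y.fa o) (d i) (bK K (F i)) x) →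
        - Real.log (rho (Y.fa o) (d i) (bK K (F i)) x) ≤ C + μ * U := by
    intro o
    obtain ⟨p, s, hs, hf⟩ := hfa o
    exact locN (fun k => bK K (G k)) g (fun k => bK_hom K (hG k)) (fun i => bK K (F i)) d
      (fun i => bK_hom K (hF i)) μ N hred TT (by
        intro J hJ L _ _ x hx ha hb
        obtain ⟨y, hy, h⟩ := hT2 ⟨J, hJ⟩ L x hx ha hb
        exact ⟨y, Finset.mem_biUnion.2 ⟨⟨J, hJ⟩, Finset.mem_univ _, hy⟩, h⟩) (Y.fa o) p s hs hf
  choose C hC0 hC using hloc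
  have hCs : 0 ≤ ∑ o, C o := Finset.sum_nonneg fun o _ => hC0 o
  refine ⟨Y, CU + ∑ o, C o, hY, hfa, by linarith, fun x hx hGx hFx => ?_⟩
  have hxK : ck K x ≠ 0 := ck_ne hx.ne
  have hxT : ∀ y ∈ TT, ¬ ∃ c : K, ck K x = c • y.rep := by
    rintro y hy ⟨c, hc⟩
    obtain ⟨i, hi⟩ := hTT0 y hy
    have h1 : aeval (ck K x) (bK K (F i)) = 0 := by
      have h2 : ck K x = c • fun b => algebraMap K K (y.rep b) := hc
      rw [h2, aeval_smul_hom' _ (bK_hom K (hF i)), aeval_map_K', hi, map_zero, mul_zero]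
    rw [aeval_ck] at h1
    exact hFx i (by exact_mod_cast h1)
  obtain ⟨U, hU0, hU1, hU2⟩ := hCU x hx hxT
  refine ⟨U, hU0, by linarith, fun o J hJ i hi hmin => ?_⟩
  have h1 := hC o (ck K x) hxK (fun k => by rw [aeval_ck, hGx k, Int.cast_zero])
    (fun i => by
      rw [aeval_ck]
      exact_mod_cast hFx i) hxT (U o) (hU0 o) (hU1 o) J hJ i hi hmin
  have h2 : C o ≤ ∑ o, C o := Finset.single_le_sum (f := C) (fun o _ => hC0 o)
    (Finset.mem_univ o)
  linarith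

/-- few places: one divisor is never well approximated -/
theorem few {n q N μ : ℕ} {κ : Type} [Fintype κ] (G : κ → MvPolynomial (Fin n) ℤ)
    (g : κ → ℕ) (hG : ∀ k, (G k).IsHomogeneous (g k)) (F : Fin q → MvPolynomial (Fin n) ℤ)
    (d : Fin q → ℕ) (hF : ∀ i, (F i).IsHomogeneous (d i)) (hN : 1 ≤ N)
    (K : Type) [Field K] [NumberField K]
    (hrat : ∀ J : Finset (Fin q), J.card = N → ∀ (L : Type) [Field L] [Algebra K L]
      (x : Fin n → L), x ≠ 0 → (∀ j ∈ J, aeval x (F j) = 0) → (∀ k, aeval x (G k) = 0) →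
        ∃ (y : Fin n → K) (c : L), x = c • fun b => algebraMap K L (y b))
    (hred : ∀ J : Finset (Fin q), J.card = N → ∀ a,
      ∀ Q ∈ (Ideal.span (Set.range (Sum.elim (fun j : J => bK K (F j.1))
        (fun k => bK K (G k))))).radical ^ μ,
      ∃ M : ℕ, X a ^ M * Q ∈ Ideal.span (Set.range (Sum.elim (fun j : J => bK K (F j.1))
        (fun k => bK K (G k)))))
    (S : Finset ℕ) (hS : ∀ ℓ ∈ S, ℓ.Prime) (hq : (N - 1) * (S.card + 1) < q)
    (ε : ℝ) (hε : 0 < ε) :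
    ∃ C : ℝ, 0 ≤ C ∧ ∀ x : Fin n → ℤ, Prim x → (∀ k, eval x (G k) = 0) →
      (∀ i, eval x (F i) ≠ 0) → ∃ i, (d i - μ * (2 + ε)) * Real.log (hgt x) - C ≤
        Real.log (sfree S (eval x (F i))) := by
  classical
  have hNq : N ≤ q := by
    have : N - 1 ≤ (N - 1) * (S.card + 1) := Nat.le_mul_of_pos_right _ (Nat.succ_pos _)
    omega
  obtain ⟨Y, C, hY, -, hC0, hC⟩ := fin_core G g hG F d hF hN hNq K hrat hred S hS ε hε
  refine ⟨(S.card + 1) * C + μ * C, by positivity, fun x hx hGx hFx => ?_⟩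
  obtain ⟨U, hU0, hU1, hU2⟩ := hC x hx hGx hFx
  choose I hI1 hI2 using fun o => exists_near
    (fun j => rho (Y.fa o) (d j) (bK K (F j)) (ck K x)) (N - 1) (by omega)
  have hcard : (Finset.univ.biUnion I).card < q := by
    refine lt_of_le_of_lt (Finset.card_biUnion_le_card_mul _ _ (N - 1) fun o _ => (hI1 o).le) ?_
    rw [Finset.card_univ, Fintype.card_option, Fintype.card_coe, mul_comm]
    exact hq
  obtain ⟨i, hi⟩ : ∃ i, i ∉ Finset.univ.biUnion I := by
    by_contra hcon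
    push Not at hcon
    have h1 : (Finset.univ : Finset (Fin q)) ⊆ Finset.univ.biUnion I := fun i _ => hcon i
    have h2 := Finset.card_le_card h1
    rw [Finset.card_univ, Fintype.card_fin] at h2
    omega
  have hi' : ∀ o, i ∉ I o := fun o h => hi (Finset.mem_biUnion.2 ⟨o, Finset.mem_univ _, h⟩)
  refine ⟨i, ?_⟩
  have h1 : ∀ o, - Real.log (rho (Y.fa o) (d i) (bK K (F i)) (ck K x)) ≤ C + μ * U o := by
    intro o
    refine hU2 o (insert i (I o)) ?_ i (Finset.mem_insert_self _ _) ?_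
    · rw [Finset.card_insert_of_notMem (hi' o), hI1 o]
      omega
    · intro j hj
      rcases Finset.mem_insert.1 hj with rfl | hj
      · exact le_rfl
      · exact hI2 o j hj i (hi' o)
  have h2 := Finset.sum_le_sum fun o (_ : o ∈ Finset.univ) => h1 o
  rw [sum_rho S hS Y hY (d i) (F i) hx (hFx i), Finset.sum_add_distrib, ← Finset.mul_sum,
    Finset.sum_const, Finset.card_univ, Fintype.card_option, Fintype.card_coe, nsmul_eq_mul] at h2
  have h3 := mul_le_mul_of_nonneg_left hU1 (Nat.cast_nonneg (α := ℝ) μ)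
  push_cast at h2
  linarith

lemma hgt_finite {n : ℕ} (B : ℝ) : {x : Fin n → ℤ | hgt x ≤ B}.Finite := by
  refine (Set.finite_Icc (fun _ : Fin n => -(⌈B⌉)) (fun _ => ⌈B⌉)).subset ?_
  intro x hx
  have hx' : hgt x ≤ B := hx
  rw [Set.mem_Icc]
  constructor
  · intro j
    have h1 := (le_hgt x j).trans (hx'.trans (Int.le_ceil B))
    rw [abs_le] at h1
    exact_mod_cast h1.1
  · intro j
    have h1 := (le_hgt x j).trans (hx'.trans (Int.le_ceil B))
    rw [abs_le] at h1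
    exact_mod_cast h1.2

lemma sfree_pos (S : Finset ℕ) (hS : ∀ ℓ ∈ S, ℓ.Prime) {m : ℤ} (hm : m ≠ 0) :
    1 ≤ sfree S m := prod_ge S hS m hm

/-- finiteness -/
theorem few_finite {n q N μ : ℕ} {κ : Type} [Fintype κ] (G : κ → MvPolynomial (Fin n) ℤ)
    (g : κ → ℕ) (hG : ∀ k, (G k).IsHomogeneous (g k)) (F : Fin q → MvPolynomial (Fin n) ℤ)
    (d : Fin q → ℕ) (hF : ∀ i, (F i).IsHomogeneous (d i)) (hN : 1 ≤ N)
    (K : Type) [Field K] [NumberField K]
    (hrat : ∀ J : Finset (Fin q), J.card = N → ∀ (L : Type) [Field L] [Algebra K L]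
      (x : Fin n → L), x ≠ 0 → (∀ j ∈ J, aeval x (F j) = 0) → (∀ k, aeval x (G k) = 0) →
        ∃ (y : Fin n → K) (c : L), x = c • fun b => algebraMap K L (y b))
    (hred : ∀ J : Finset (Fin q), J.card = N → ∀ a,
      ∀ Q ∈ (Ideal.span (Set.range (Sum.elim (fun j : J => bK K (F j.1))
        (fun k => bK K (G k))))).radical ^ μ,
      ∃ M : ℕ, X a ^ M * Q ∈ Ideal.span (Set.range (Sum.elim (fun j : J => bK K (F j.1))
        (fun k => bK K (G k)))))
    (S : Finset ℕ) (hS : ∀ ℓ ∈ S, ℓ.Prime) (hq : (N - 1) * (S.card + 1) < q)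
    (θ c : ℝ) (hθ : ∀ i, θ < (d i : ℝ) - 2 * μ) :
    {x : Fin n → ℤ | Prim x ∧ (∀ k, eval x (G k) = 0) ∧ ∀ i, eval x (F i) ≠ 0 ∧
      sfree S (eval x (F i)) ≤ c * hgt x ^ θ}.Finite := by
  classical
  have hq0 : 0 < q := lt_of_le_of_lt (Nat.zero_le _) hq
  obtain ⟨i0, -, hmin⟩ := Finset.exists_min_image (Finset.univ : Finset (Fin q)) (fun i => d i)
    ⟨⟨0, hq0⟩, Finset.mem_univ _⟩
  set δ : ℝ := (d i0 : ℝ) - 2 * μ - θ with hδ
  have hδ0 : 0 < δ := by
    have := hθ i0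
    linarith
  set ε : ℝ := δ / (2 * (μ + 1)) with hε
  have hε0 : 0 < ε := by positivity
  have hμε : μ * ε ≤ δ / 2 := by
    rw [hε, mul_div_assoc', div_le_div_iff₀ (by positivity) (by norm_num)]
    nlinarith [Nat.cast_nonneg (α := ℝ) μ]
  obtain ⟨C, hC0, hC⟩ := few G g hG F d hF hN K hrat hred S hS hq ε hε0
  refine (hgt_finite (n := n) (Real.exp (2 * (C + |Real.log (max c 1)|) / δ))).subset ?_
  rintro x ⟨hx, hGx, hFx⟩
  obtain ⟨i, hi⟩ := hC x hx hGx fun i => (hFx i).1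
  have hH := hgt_ge_one hx.ne
  have hHp : 0 < hgt x := by linarith
  have hlogH : 0 ≤ Real.log (hgt x) := Real.log_nonneg hH
  have hpw : 0 < hgt x ^ θ := Real.rpow_pos_of_pos hHp _
  have h1 : Real.log (sfree S (eval x (F i))) ≤ |Real.log (max c 1)| + θ * Real.log (hgt x) := by
    have h2 : sfree S (eval x (F i)) ≤ max c 1 * hgt x ^ θ :=
      (hFx i).2.trans (mul_le_mul_of_nonneg_right (le_max_left _ _) hpw.le)
    have h3 := Real.log_le_log (by linarith [sfree_pos S hS (hFx i).1]) h2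
    rw [Real.log_mul (lt_of_lt_of_le one_pos (le_max_right _ _)).ne' hpw.ne',
      Real.log_rpow hHp] at h3
    linarith [le_abs_self (Real.log (max c 1))]
  have hdi : (d i0 : ℝ) ≤ d i := by exact_mod_cast hmin i (Finset.mem_univ _)
  have h2 : δ / 2 * Real.log (hgt x) ≤ C + |Real.log (max c 1)| := by
    have h3 : δ / 2 ≤ (d i : ℝ) - μ * (2 + ε) - θ := by
      rw [hδ] at hμε ⊢
      linarith
    have h4 := mul_le_mul_of_nonneg_right h3 hlogH
    linarith
  have h3 : Real.log (hgt x) ≤ 2 * (C + |Real.log (max c 1)|) / δ := by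
    rw [le_div_iff₀ hδ0]
    linarith
  show hgt x ≤ _
  rw [← Real.exp_log hHp]
  exact Real.exp_le_exp.2 h3

end Pool.Agent.W180.RR
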