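import Mathlib
import Pool.Agent.H393R2.Aux1

set_option autoImplicit false

/-!
The auxiliary polynomial for several algebraic targets.
-/

open Finset

namespace Pool.Agent.W180.RR

/-- the box of exponents -/
def Box {m : ℕ} (r : Fin m → ℕ) : Finset (Fin m → ℕ) :=
  Fintype.piFinset fun h => Finset.range (r h + 1)

lemma mem_Box {m : ℕ} {r : Fin m → ℕ} {a : Fin m → ℕ} : a ∈ Box r ↔ ∀ h, a h ≤ r h := by
  unfold Box
  rw [Fintype.mem_piFinset]
  simp only [Finset.mem_range, Nat.lt_succ_iff]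

lemma Box_card_le {m : ℕ} (r : Fin m → ℕ) : (Box r).card ≤ 2 ^ (∑ h, r h) := by
  unfold Box
  rw [Fintype.card_piFinset, ← Finset.prod_pow_eq_pow_sum]
  refine Finset.prod_le_prod' fun h _ => ?_
  rw [Finset.card_range]
  exact Nat.lt_two_pow_self

lemma Box_card_pos {m : ℕ} (r : Fin m → ℕ) : 0 < (Box r).card :=
  Finset.card_pos.2 ⟨0, mem_Box.2 fun h => Nat.zero_le _⟩

/-- powers of the roots of `f` in terms of the first `d` powers -/
theorem int_powers (f : Polynomial ℤ) (hmon : f.Monic) (hdeg : 0 < f.natDegree) :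
    ∃ (Dg : ℕ) (C0 : ℕ), 1 ≤ Dg ∧ 1 ≤ C0 ∧ ∀ s : ℕ, ∃ ρ : ℕ → ℤ, (∀ i, |ρ i| ≤ (C0 : ℤ) ^ s) ∧
      ∀ (K : Type) [Field K] (ξ : K), Polynomial.aeval ξ f = 0 →
        ξ ^ s = ∑ i ∈ Finset.range Dg, (ρ i : K) * ξ ^ i := by
  obtain ⟨e, he⟩ := Nat.exists_eq_succ_of_ne_zero hdeg.ne'
  -- relation
  have hrel : ∀ (K : Type) [Field K] (ξ : K), Polynomial.aeval ξ f = 0 →
      ξ ^ (e + 1) = - ∑ i ∈ Finset.range (e + 1), (f.coeff i : K) * ξ ^ i := by
    intro K _ ξ h1
    rw [Polynomial.aeval_eq_sum_range, he, Nat.succ_eq_add_one, Finset.sum_range_succ] at h1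
    have h2 : f.coeff (e + 1) = 1 := by
      have := hmon.coeff_natDegree
      rwa [he] at this
    rw [h2, one_smul] at h1
    rw [eq_neg_iff_add_eq_zero, add_comm, ← h1]
    congr 1
    refine Finset.sum_congr rfl (fun i _ => ?_)
    rw [zsmul_eq_mul]
  set M : ℕ := ∑ i ∈ Finset.range (e + 1), (f.coeff i).natAbs with hM
  refine ⟨e + 1, 1 + M, Nat.succ_pos e, by omega, ?_⟩
  have hcM : ∀ i ∈ Finset.range (e+1), |f.coeff i| ≤ (M : ℤ) := by
    intro i hi
    rw [Int.abs_eq_natAbs]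
    exact_mod_cast Finset.single_le_sum (f := fun i => (f.coeff i).natAbs)
      (fun _ _ => Nat.zero_le _) hi
  intro s
  induction s with
  | zero =>
    refine ⟨fun i => if i = 0 then 1 else 0, ?_, ?_⟩
    · intro i
      simp only [pow_zero]
      split_ifs <;> simp
    · intro K _ ξ _
      rw [Finset.sum_range_succ']
      simp
  | succ s ih =>
    obtain ⟨ρ, hb, hρ⟩ := ih
    refine ⟨fun i => if i ∈ Finset.range (e+1) then
      ((if i = 0 then 0 else ρ (i - 1)) - ρ e * f.coeff i) else 0, ?_, ?_⟩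
    · intro i
      simp only
      by_cases hi : i ∈ Finset.range (e+1)
      · rw [if_pos hi]
        have h1 : |(if i = 0 then 0 else ρ (i - 1))| ≤ ((1 + M : ℕ) : ℤ) ^ s := by
          split_ifs
          · simp; positivity
          · exact hb _
        have h2 : |ρ e * f.coeff i| ≤ ((1 + M : ℕ) : ℤ) ^ s * M := by
          rw [abs_mul]
          exact mul_le_mul (hb e) (hcM i hi) (abs_nonneg _) (by positivity)
        calc |(if i = 0 then 0 else ρ (i - 1)) - ρ e * f.coeff i| ≤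
              |(if i = 0 then 0 else ρ (i - 1))| + |ρ e * f.coeff i| := abs_sub _ _
          _ ≤ ((1 + M : ℕ) : ℤ) ^ s + ((1 + M : ℕ) : ℤ) ^ s * M := add_le_add h1 h2
          _ = ((1 + M : ℕ) : ℤ) ^ (s + 1) := by push_cast; ring
      · rw [if_neg hi]; simp; positivity
    · intro K _ ξ hξ
      have h1 : ∑ i ∈ Finset.range (e+1), (((if i ∈ Finset.range (e+1) then
          ((if i = 0 then 0 else ρ (i - 1)) - ρ e * f.coeff i) else 0 : ℤ)) : K) * ξ ^ i =
          ∑ i ∈ Finset.range (e+1), (((if i = 0 then 0 else ρ (i - 1) : ℤ)) : K) * ξ ^ i -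
            ρ e * ∑ i ∈ Finset.range (e+1), (f.coeff i : K) * ξ ^ i := by
        rw [Finset.mul_sum, ← Finset.sum_sub_distrib]
        refine Finset.sum_congr rfl (fun i hi => ?_)
        rw [if_pos hi]
        push_cast; ring
      rw [h1]
      have h2 : ∑ i ∈ Finset.range (e+1), (((if i = 0 then 0 else ρ (i - 1) : ℤ)) : K) * ξ ^ i =
          ∑ i ∈ Finset.range e, (ρ i : K) * ξ ^ (i + 1) := by
        rw [Finset.sum_range_succ']
        simp
      rw [h2, pow_succ, hρ K ξ hξ, Finset.sum_mul, Finset.sum_range_succ]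
      have h3 : (ρ e : K) * ξ ^ e * ξ =
          - (ρ e * ∑ i ∈ Finset.range (e+1), (f.coeff i : K) * ξ ^ i) := by
        rw [mul_assoc, ← pow_succ, hrel K ξ hξ]; ring
      rw [h3, sub_eq_add_neg]
      congr 1
      refine Finset.sum_congr rfl (fun i _ => ?_)
      rw [pow_succ]; ring

theorem bad_box {m : ℕ} (r : Fin m → ℕ) (hr : ∀ h, 0 < r h) (τ : ℝ) (hτ : 0 < τ) (hm : 0 < m) :
    (((Box r).filter fun J => ∑ h, (J h : ℝ) / r h < (1 / 2 - τ) * m).card : ℝ) ≤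
      (Box r).card / (τ ^ 2 * m) := by
  classical
  refine le_trans ?_ (Pool.Agent.H393R2.AuxNS.chebyshev (fun h => Finset.range (r h + 1))
    (fun h b => (b : ℝ) / r h - 1 / 2) ?_ ?_ τ hτ hm)
  · refine Nat.cast_le.2 (Finset.card_le_card ?_)
    intro J hJ
    rw [Finset.mem_filter] at hJ ⊢
    refine ⟨hJ.1, ?_⟩
    refine lt_of_lt_of_le ?_ (neg_le_abs _)
    rw [Finset.sum_sub_distrib, Finset.sum_const, Finset.card_univ, Fintype.card_fin,
      nsmul_eq_mul]
    have := hJ.2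
    linarith
  · intro h
    have hr' : (r h : ℝ) ≠ 0 := by exact_mod_cast (hr h).ne'
    rw [Finset.sum_sub_distrib, Finset.sum_const, Finset.card_range, nsmul_eq_mul,
      ← Finset.sum_div]
    have h1 : (∑ i ∈ Finset.range (r h + 1), (i : ℝ)) * 2 = (r h + 1) * r h := by
      have := Finset.sum_range_id_mul_two (r h + 1)
      have h2 : ((∑ i ∈ Finset.range (r h + 1), i : ℕ) : ℝ) * 2 = ((r h + 1 : ℕ) : ℝ) *
          ((r h + 1 - 1 : ℕ) : ℝ) := by exact_mod_cast this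
      push_cast at h2
      simpa using h2
    have h2 : ∑ i ∈ Finset.range (r h + 1), (i : ℝ) = (r h + 1) * r h / 2 := by linarith
    rw [h2]
    field_simp
    push_cast
    ring
  · intro h b hb
    have hr' : (0 : ℝ) < r h := by exact_mod_cast hr h
    have hb' : (b : ℝ) ≤ r h := by
      have := Finset.mem_range.1 hb
      exact_mod_cast Nat.lt_succ_iff.1 this
    have h1 : (b : ℝ) / r h ≤ 1 := by rw [div_le_one hr']; exact hb'
    have h2 : 0 ≤ (b : ℝ) / r h := by positivity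
    rw [abs_le]
    constructor <;> linarith

attribute [local instance] Matrix.seminormedAddCommGroup in
theorem aux_box (f : Polynomial ℤ) (hmon : f.Monic) (hdeg : 0 < f.natDegree) (τ : ℝ)
    (hτ : 0 < τ) :
    ∃ C : ℝ, 1 ≤ C ∧ ∃ m0 : ℕ, ∀ m : ℕ, m0 ≤ m → ∀ r : Fin m → ℕ, (∀ h, 0 < r h) →
      ∃ c : (Fin m → ℕ) → ℤ,
        (∃ a ∈ Box r, c a ≠ 0) ∧
        (∀ a ∈ Box r, |(c a : ℝ)| ≤ C ^ (∑ h, r h)) ∧
        (∀ (K : Type) [Field K] (ξ : K), Polynomial.aeval ξ f = 0 → ∀ J ∈ Box r,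
          ∑ h, (J h : ℝ) / (r h : ℝ) < (1 / 2 - τ) * m →
          ∑ a ∈ Box r, (c a : K) * ∏ h, (((a h).choose (J h) : K) * ξ ^ (a h - J h)) = 0) := by
  classical
  obtain ⟨Dg, C0, hDg, hC0, hpow⟩ := int_powers f hmon hdeg
  choose ρ hρb hρ using hpow
  have hC0' : (1 : ℝ) ≤ C0 := by exact_mod_cast hC0
  refine ⟨2 * (2 * C0), by linarith, ⌈2 * Dg / τ ^ 2⌉₊ + 1, ?_⟩
  set Cc : ℝ := 2 * (2 * C0) with hCc
  have hCc1 : 1 ≤ Cc := by rw [hCc]; linarith
  intro m hm r hr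
  have hm0 : 0 < m := by omega
  have hm0' : (0 : ℝ) < m := by exact_mod_cast hm0
  have hDg' : (1 : ℝ) ≤ Dg := by exact_mod_cast hDg
  have hmge : 2 * Dg / τ ^ 2 ≤ m := by
    refine (Nat.le_ceil _).trans ?_
    have : ⌈2 * Dg / τ ^ 2⌉₊ ≤ m := by omega
    exact_mod_cast this
  set D := Box r with hD
  have hDpos : 0 < D.card := Box_card_pos r
  set Bad := D.filter (fun J => ∑ h, (J h : ℝ) / r h < (1 / 2 - τ) * m) with hBad
  have hcards : Bad.card * Dg * 2 ≤ D.card := by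
    have h1 : (Bad.card : ℝ) ≤ D.card / (τ ^ 2 * m) := bad_box r hr τ hτ hm0
    have h2 : (D.card : ℝ) / (τ ^ 2 * m) * Dg * 2 ≤ D.card := by
      have h3 : (D.card : ℝ) / (τ ^ 2 * m) * Dg * 2 = (2 * Dg / τ ^ 2) * (D.card / m) := by
        field_simp
      rw [h3]
      calc (2 * Dg / τ ^ 2) * ((D.card : ℝ) / m) ≤ m * ((D.card : ℝ) / m) :=
            mul_le_mul_of_nonneg_right hmge (by positivity)
        _ = D.card := by field_simp
    have h3 : (Bad.card : ℝ) * Dg * 2 ≤ D.card := by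
      refine le_trans ?_ h2
      have := mul_le_mul_of_nonneg_right h1 (by positivity : (0 : ℝ) ≤ Dg * 2)
      linarith
    exact_mod_cast h3
  by_cases hBe : Bad.card = 0
  · -- no equations
    rw [Finset.card_eq_zero] at hBe
    obtain ⟨a₀, ha₀⟩ : D.Nonempty := Finset.card_pos.1 hDpos
    refine ⟨fun a => if a = a₀ then 1 else 0, ⟨a₀, ha₀, by simp⟩, ?_, ?_⟩
    · intro a _
      have h1 : (1 : ℝ) ≤ Cc ^ (∑ h, r h) := one_le_pow₀ hCc1
      by_cases h : a = a₀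
      · simpa [h] using h1
      · simp [h]; positivity
    · intro K _ ξ _ J hJ hlt
      have : J ∈ Bad := Finset.mem_filter.2 ⟨hJ, hlt⟩
      rw [hBe] at this; simp at this
  · -- Siegel's lemma
    have hBpos : 0 < Bad.card := Nat.pos_of_ne_zero hBe
    let sx : (Fin m → ℕ) → (Fin m → ℕ) → ℕ := fun a J => ∑ h, (a h - J h)
    let bc : (Fin m → ℕ) → (Fin m → ℕ) → ℕ := fun a J => ∏ h, (a h).choose (J h)
    let A : Matrix (↥Bad × Fin Dg) ↥D ℤ := Matrix.of fun Ji a =>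
      (bc a.1 Ji.1.1 : ℤ) * ρ (sx a.1 Ji.1.1) Ji.2
    have hcα : Fintype.card (↥Bad × Fin Dg) = Bad.card * Dg := by
      rw [Fintype.card_prod, Fintype.card_coe, Fintype.card_fin]
    have hcβ : Fintype.card ↥D = D.card := Fintype.card_coe _
    have hα0 : 0 < Bad.card * Dg := Nat.mul_pos hBpos hDg
    obtain ⟨t, ht0, hAt, htn⟩ := Int.Matrix.exists_ne_zero_int_vec_norm_le A
      (by rw [hcα, hcβ]; omega) (by rw [hcα]; exact hα0)
    set N := ∑ h, r h with hN
    have hsum : ∀ a ∈ D, ∑ h, a h ≤ N := by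
      intro a ha
      rw [hD, mem_Box] at ha
      exact Finset.sum_le_sum fun h _ => ha h
    have hAn : ‖A‖ ≤ (2 * C0 : ℝ) ^ N := by
      rw [Matrix.norm_le_iff (by positivity)]
      intro Ji a
      simp only [A, Matrix.of_apply]
      rw [Int.norm_eq_abs]
      push_cast
      rw [abs_mul]
      have h1 : |((bc a.1 Ji.1.1 : ℕ) : ℝ)| ≤ 2 ^ N := by
        rw [Nat.abs_cast]
        have : bc a.1 Ji.1.1 ≤ 2 ^ N := by
          calc bc a.1 Ji.1.1 ≤ ∏ h : Fin m, 2 ^ (a.1 h) := by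
                apply Finset.prod_le_prod'; intro h _
                exact Nat.choose_le_two_pow _ _
            _ = 2 ^ (∑ h, a.1 h) := by rw [Finset.prod_pow_eq_pow_sum]
            _ ≤ 2 ^ N := Nat.pow_le_pow_right (by norm_num) (hsum _ a.2)
        exact_mod_cast this
      have h2 : |((ρ (sx a.1 Ji.1.1) Ji.2 : ℤ) : ℝ)| ≤ (C0 : ℝ) ^ N := by
        have h3 : |((ρ (sx a.1 Ji.1.1) Ji.2 : ℤ) : ℝ)| ≤ (C0 : ℝ) ^ (sx a.1 Ji.1.1) := by
          exact_mod_cast hρb (sx a.1 Ji.1.1) Ji.2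
        refine h3.trans ?_
        apply pow_le_pow_right₀ hC0'
        refine le_trans ?_ (hsum _ a.2)
        apply Finset.sum_le_sum; intro h _
        exact Nat.sub_le _ _
      calc |((bc a.1 Ji.1.1 : ℕ) : ℝ)| * |((ρ (sx a.1 Ji.1.1) Ji.2 : ℤ) : ℝ)| ≤
            2 ^ N * (C0 : ℝ) ^ N := mul_le_mul h1 h2 (abs_nonneg _) (by positivity)
        _ = (2 * C0 : ℝ) ^ N := by rw [mul_pow]
    have hbase1 : (1 : ℝ) ≤ (2 * C0 : ℝ) ^ N := one_le_pow₀ (by linarith)
    have hmaxA : max 1 ‖A‖ ≤ (2 * C0 : ℝ) ^ N := max_le hbase1 hAn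
    have htn' : ‖t‖ ≤ Cc ^ N := by
      have hGpos : (1 : ℝ) ≤ (D.card : ℝ) := by exact_mod_cast hDpos
      have hbase : (1 : ℝ) ≤ (D.card : ℝ) * max 1 ‖A‖ := by
        have := le_max_left 1 ‖A‖
        nlinarith
      rw [hcα, hcβ] at htn
      refine htn.trans ?_
      have hexp : (((Bad.card * Dg : ℕ) : ℝ) / ((D.card : ℝ) - ((Bad.card * Dg : ℕ) : ℝ))) ≤ 1 := by
        have h1 : ((Bad.card * Dg : ℕ) : ℝ) * 2 ≤ D.card := by exact_mod_cast hcards
        have h2 : (0 : ℝ) < ((Bad.card * Dg : ℕ) : ℝ) := by exact_mod_cast hα0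
        rw [div_le_one (by linarith)]
        linarith
      calc ((D.card : ℝ) * max 1 ‖A‖) ^ (((Bad.card * Dg : ℕ) : ℝ) /
            ((D.card : ℝ) - ((Bad.card * Dg : ℕ) : ℝ)))
          ≤ ((D.card : ℝ) * max 1 ‖A‖) ^ (1 : ℝ) := Real.rpow_le_rpow_of_exponent_le hbase hexp
        _ = (D.card : ℝ) * max 1 ‖A‖ := Real.rpow_one _
        _ ≤ (2 : ℝ) ^ N * (2 * C0 : ℝ) ^ N := by
            apply mul_le_mul _ hmaxA (by positivity) (by positivity)
            exact_mod_cast Box_card_le r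
        _ = Cc ^ N := (mul_pow _ _ _).symm
    obtain ⟨cc, hcc1⟩ : ∃ cc : (Fin m → ℕ) → ℤ, ∀ a (h : a ∈ D), cc a = t ⟨a, h⟩ :=
      ⟨fun a => if h : a ∈ D then t ⟨a, h⟩ else 0, fun a h => dif_pos h⟩
    refine ⟨cc, ?_, ?_, ?_⟩
    · obtain ⟨a, ha⟩ := Function.ne_iff.mp ht0
      refine ⟨a.1, a.2, ?_⟩
      rw [hcc1 a.1 a.2]; exact ha
    · intro a h
      rw [hcc1 a h]
      refine le_trans ?_ htn'
      have := norm_le_pi_norm t ⟨a, h⟩
      rwa [Int.norm_eq_abs] at this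
    · intro K _ ξ hξ J hJ hlt
      have hJB : J ∈ Bad := Finset.mem_filter.2 ⟨hJ, hlt⟩
      rw [← Finset.sum_coe_sort D]
      have h1 : ∀ a : ↥D, ((cc a.1 : ℤ) : K) *
          ∏ h, (((a.1 h).choose (J h) : K) * ξ ^ (a.1 h - J h)) =
          ∑ i ∈ Finset.range Dg, ((t a : K) * ((bc a.1 J : K) * (ρ (sx a.1 J) i : K))) * ξ ^ i := by
        intro a
        rw [hcc1 a.1 a.2]
        have h2 : ∏ h, (((a.1 h).choose (J h) : K) * ξ ^ (a.1 h - J h)) =
            (bc a.1 J : K) * ξ ^ (sx a.1 J) := by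
          simp only [bc, sx]
          push_cast
          rw [Finset.prod_mul_distrib, Finset.prod_pow_eq_pow_sum]
        rw [h2, hρ (sx a.1 J) K ξ hξ, Finset.mul_sum, Finset.mul_sum]
        refine Finset.sum_congr rfl (fun i _ => ?_)
        ring
      rw [Finset.sum_congr rfl (fun a _ => h1 a), Finset.sum_comm]
      apply Finset.sum_eq_zero
      intro i hi
      rw [← Finset.sum_mul]
      have h3 := congrFun hAt (⟨J, hJB⟩, ⟨i, Finset.mem_range.mp hi⟩)
      simp only [Matrix.mulVec, dotProduct, A, Matrix.of_apply, Pi.zero_apply] at h3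
      have h4 : ∑ a : ↥D, ((t a : K) * ((bc a.1 J : K) * (ρ (sx a.1 J) i : K))) = 0 := by
        have h5 : ((∑ x : ↥D, (bc x.1 J : ℤ) * ρ (sx x.1 J) i * t x : ℤ) : K) = 0 := by
          rw [h3]; simp
        push_cast at h5
        rw [← h5]
        refine Finset.sum_congr rfl (fun a _ => ?_)
        ring
      rw [h4, zero_mul]

end Pool.Agent.W180.RR
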