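import Pool.Agent.W180.RR.Tay
import Pool.Agent.H393R2.Roth
import Pool.Agent.H393R2.Codim

set_option autoImplicit false

/-!
The core of the Ridout theorem: bounded height for fixed exponents.
-/

open Finset

namespace Pool.Agent.W180.RR

/-- product of the `δ`'s -/
lemma delta_le {m : ℕ} (r k J : Fin m → ℕ) (N : Fin m → ℝ) (hr : ∀ h, 0 < r h)
    (R : ℝ) (hR : ∀ h, R ≤ r h * N h) (hR0 : 0 ≤ R) (w : ℝ) (hw : 0 ≤ w) (τ σ : ℝ)
    (hJ : (1 / 2 - τ) * m ≤ ∑ h, (J h : ℝ) / r h) (hk : ∑ h, (k h : ℝ) / r h < σ)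
    (hkJ : ∀ h, k h ≤ J h) :
    ∏ h, (Real.exp (-(w * N h))) ^ (J h - k h) ≤ Real.exp (-(w * (R * ((1 / 2 - τ) * m - σ)))) := by
  have h1 : ∏ h, (Real.exp (-(w * N h))) ^ (J h - k h) =
      Real.exp (∑ h, ((J h - k h : ℕ) : ℝ) * -(w * N h)) := by
    rw [Real.exp_sum]
    refine Finset.prod_congr rfl fun h _ => ?_
    rw [Real.exp_nat_mul]
  rw [h1]
  apply Real.exp_le_exp.2
  have h2 : ∀ h, R * ((J h : ℝ) / r h - (k h : ℝ) / r h) ≤ ((J h - k h : ℕ) : ℝ) * N h := by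
    intro h
    have hr' : (0 : ℝ) < r h := by exact_mod_cast hr h
    rw [Nat.cast_sub (hkJ h), ← sub_div]
    have h3 : (0 : ℝ) ≤ ((J h : ℝ) - k h) / r h := by
      apply div_nonneg _ hr'.le
      have : (k h : ℝ) ≤ J h := by exact_mod_cast hkJ h
      linarith
    calc R * (((J h : ℝ) - k h) / r h) ≤ (r h * N h) * (((J h : ℝ) - k h) / r h) :=
          mul_le_mul_of_nonneg_right (hR h) h3
      _ = ((J h : ℝ) - k h) * N h := by field_simp
  have h4 : R * ((1 / 2 - τ) * m - σ) ≤ ∑ h, ((J h - k h : ℕ) : ℝ) * N h := by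
    calc R * ((1 / 2 - τ) * m - σ) ≤ R * (∑ h, (J h : ℝ) / r h - ∑ h, (k h : ℝ) / r h) :=
          mul_le_mul_of_nonneg_left (by linarith) hR0
      _ = ∑ h, R * ((J h : ℝ) / r h - (k h : ℝ) / r h) := by
          rw [← Finset.sum_sub_distrib, Finset.mul_sum]
      _ ≤ _ := Finset.sum_le_sum fun h _ => h2 h
  have h5 : ∑ h, ((J h - k h : ℕ) : ℝ) * -(w * N h) =
      -(w * ∑ h, ((J h - k h : ℕ) : ℝ) * N h) := by
    rw [Finset.mul_sum, ← Finset.sum_neg_distrib]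
    refine Finset.sum_congr rfl fun h _ => ?_
    ring
  rw [h5]
  have := mul_le_mul_of_nonneg_left h4 hw
  linarith

theorem core {K : Type} [Field K] {ι : Type} [Fintype ι] (f0 : AbsoluteValue K ℝ)
    (fs : ι → AbsoluteValue K ℝ) (hna : ∀ i, IsNonarchimedean (fs i))
    (hint : ∀ i (n : ℤ), fs i (n : K) ≤ 1)
    (hprod : ∀ n : ℤ, n ≠ 0 → 1 ≤ f0 (n : K) * ∏ i, fs i (n : K))
    (g : Polynomial ℤ) (hmon : g.Monic) (hdeg : 0 < g.natDegree)
    (ξ0 : K) (ξ : ι → K) (hξ0 : Polynomial.aeval ξ0 g = 0)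
    (hξ : ∀ i, Polynomial.aeval (ξ i) g = 0) (B : ℝ) (hB : 1 ≤ B) (hB0 : f0 ξ0 ≤ B)
    (hB1 : ∀ i, fs i (ξ i) ≤ 1) (w0 : ℝ) (w : ι → ℝ) (hw0 : 0 ≤ w0) (hw : ∀ i, 0 ≤ w i)
    (ε : ℝ) (hε : 0 < ε) (hsum : 2 + ε ≤ w0 + ∑ i, w i) :
    ∃ N0 : ℝ, ∀ p q : ℤ, IsCoprime p q → q ≠ 0 →
      f0 ((p : K) - ξ0 * q) ≤ (1 + B) * max |(p : ℝ)| |(q : ℝ)| *
        Real.exp (-(w0 * Real.log (max |(p : ℝ)| |(q : ℝ)|))) →
      (∀ i, fs i ((p : K) - ξ i * q) ≤ Real.exp (-(w i * Real.log (max |(p : ℝ)| |(q : ℝ)|)))) →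
      Real.log (max |(p : ℝ)| |(q : ℝ)|) ≤ N0 := by
  classical
  by_contra hcon
  push Not at hcon
  choose pp qq hcop hq0 hle0 hle hlt using hcon
  set τ : ℝ := ε / (20 + 10 * ε) with hτdef
  have hτ : 0 < τ := by positivity
  have hτ2 : τ ≤ 1 / 2 := by
    rw [hτdef, div_le_div_iff₀ (by positivity) (by norm_num)]
    linarith
  have hτe : (2 + ε) * 5 * τ = ε / 2 := by
    rw [hτdef]
    field_simp
    ring
  obtain ⟨C, hC, m0, haux⟩ := aux_box g hmon hdeg τ hτ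
  set m : ℕ := max m0 1 with hm
  have hm0 : 0 < m := lt_of_lt_of_le one_pos (le_max_right _ _)
  have hmR : (1 : ℝ) ≤ m := by exact_mod_cast hm0
  obtain ⟨ω, hω, hroth⟩ := Pool.Agent.H393R2.roth_lemma m τ hτ
  set A : ℝ := 16 * (1 + B) * C * B with hA
  have hA1 : 1 ≤ A := by
    rw [hA]
    have h1 : 1 ≤ C * B := one_le_mul_of_one_le_of_one_le hC hB
    have h2 : 1 ≤ 16 * (1 + B) := by linarith
    calc (1 : ℝ) ≤ (16 * (1 + B)) * (C * B) := one_le_mul_of_one_le_of_one_le h2 h1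
      _ = _ := by ring
  -- the sequence
  have hN0 : ∀ t : ℕ, (t : ℝ) + 1 < Real.log (max |(pp (t + 1) : ℝ)| |(qq (t + 1) : ℝ)|) :=
    fun t => hlt _
  obtain ⟨F, -, hF1, hF2⟩ := Pool.Agent.H393R2.exists_fast
    (fun t : ℕ => Real.log (max |(pp ((t : ℝ) + 1) : ℝ)| |(qq ((t : ℝ) + 1) : ℝ)|))
    (fun t => lt_trans (by positivity) (hN0 t))
    (Filter.tendsto_atTop_mono (fun t => ((by linarith [hN0 t]) : (t : ℝ) ≤ _))
      tendsto_natCast_atTop_atTop) 0
    (max 1 (max (2 / ω) (max (2 * m * Real.log C / ω) (4 * Real.log A / ε + 1))))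
    (max 1 (2 / ω)) (le_max_left _ _)
  set P : Fin m → ℤ := fun h => pp ((F h : ℝ) + 1) with hP
  set Q : Fin m → ℤ := fun h => qq ((F h : ℝ) + 1) with hQ
  set H : Fin m → ℝ := fun h => max |(P h : ℝ)| |(Q h : ℝ)| with hH
  set N : Fin m → ℝ := fun h => Real.log (H h) with hN
  set Nm : ℝ := max 1 (max (2 / ω) (max (2 * m * Real.log C / ω) (4 * Real.log A / ε + 1)))
    with hNm
  have hNm1 : 1 ≤ Nm := le_max_left _ _
  have hNm2 : 2 / ω ≤ Nm := (le_max_left _ _).trans (le_max_right _ _)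
  have hNm3 : 2 * m * Real.log C / ω ≤ Nm :=
    (le_max_left _ _).trans ((le_max_right _ _).trans (le_max_right _ _))
  have hNm4 : 4 * Real.log A / ε + 1 ≤ Nm :=
    (le_max_right _ _).trans ((le_max_right _ _).trans (le_max_right _ _))
  have hNge : ∀ h, Nm ≤ N h := fun h => hF1 h
  have hNpos : ∀ h, 0 < N h := fun h => by linarith [hNge h]
  have hNfast : ∀ i j : Fin m, i < j → max 1 (2 / ω) * N i ≤ N j := fun i j hij => hF2 i j hij
  obtain ⟨R0, r, hR0, hr, hr1, hr2⟩ := Pool.Agent.H393R2.exists_degrees hm0 N hNpos τ hτ hτ2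
  set R : ℝ := (1 - τ) * R0 with hR
  have hRpos : 0 < R := mul_pos (by linarith) hR0
  have hR0R : R0 ≤ 2 * R := by
    rw [hR]
    nlinarith
  have hrle : ∀ h, (r h : ℝ) ≤ R0 / N h := fun h => by
    rw [le_div_iff₀ (hNpos h)]
    exact hr2 h
  have hrle2 : ∀ h, (r h : ℝ) ≤ R0 / Nm := fun h => by
    rw [le_div_iff₀ (by linarith)]
    exact (mul_le_mul_of_nonneg_left (hNge h) (by positivity)).trans (hr2 h)
  have hsumr : ((∑ h, r h : ℕ) : ℝ) ≤ m * R0 / Nm := by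
    push_cast
    calc ∑ h, (r h : ℝ) ≤ ∑ _h : Fin m, R0 / Nm := Finset.sum_le_sum fun h _ => hrle2 h
      _ = m * R0 / Nm := by
          rw [Finset.sum_const, Finset.card_univ, Fintype.card_fin, nsmul_eq_mul]
          ring
  have hNmpos : 0 < Nm := by linarith
  obtain ⟨c, hc0, hcC, hcG⟩ := haux m (le_max_left _ _) r hr
  have hcop' : ∀ h, IsCoprime (P h) (Q h) := fun h => hcop _
  have hq0' : ∀ h, Q h ≠ 0 := fun h => hq0 _
  have hlogC : 0 ≤ Real.log C := Real.log_nonneg hC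
  obtain ⟨k, hk, hkne⟩ := hroth r R hm0 hr
    (by
      intro i j hij
      have h1 := hNfast i j hij
      have h2 : 2 / ω * N i ≤ N j :=
        (mul_le_mul_of_nonneg_right (le_max_right _ _) (hNpos i).le).trans h1
      have h3 : 2 * N i ≤ ω * N j := by
        rw [div_mul_eq_mul_div, div_le_iff₀ hω] at h2
        linarith
      -- r j * N j ≤ R0 ≤ 2 R ≤ 2 r i N i ≤ r i ω N j
      have h4 : (r j : ℝ) * N j ≤ (ω * r i) * N j := by
        calc (r j : ℝ) * N j ≤ R0 := hr2 j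
          _ ≤ 2 * R := hR0R
          _ ≤ 2 * (r i * N i) := by linarith [hr1 i]
          _ = r i * (2 * N i) := by ring
          _ ≤ r i * (ω * N j) := mul_le_mul_of_nonneg_left h3 (by positivity)
          _ = _ := by ring
      exact le_of_mul_le_mul_right h4 (hNpos j))
    (by
      intro h
      refine (hrle2 h).trans ?_
      rw [div_le_iff₀ hNmpos]
      have h1 : 2 ≤ Nm * ω := by rwa [div_le_iff₀ hω] at hNm2
      nlinarith)
    P Q hcop' hq0'
    (fun h => hr1 h) c hc0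
    (by
      intro a ha
      refine (hcC a ha).trans ?_
      have h1 : C ^ (∑ h, r h) = Real.exp (((∑ h, r h : ℕ) : ℝ) * Real.log C) := by
        rw [Real.exp_nat_mul, Real.exp_log (by linarith)]
      rw [h1]
      apply Real.exp_le_exp.2
      have h2 : 2 * m * Real.log C ≤ Nm * ω := by rwa [div_le_iff₀ hω] at hNm3
      calc ((∑ h, r h : ℕ) : ℝ) * Real.log C ≤ (m * R0 / Nm) * Real.log C :=
            mul_le_mul_of_nonneg_right hsumr hlogC
        _ ≤ (m * (2 * R) / Nm) * Real.log C := by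
            refine mul_le_mul_of_nonneg_right ?_ hlogC
            rw [div_le_div_iff_of_pos_right hNmpos]
            exact mul_le_mul_of_nonneg_left hR0R (by positivity)
        _ = (2 * m * Real.log C) * R / Nm := by ring
        _ ≤ (Nm * ω) * R / Nm := by
            rw [div_le_div_iff_of_pos_right hNmpos]
            exact mul_le_mul_of_nonneg_right h2 hRpos.le
        _ = ω * R := by field_simp)
  have hNN : NN r k c P Q ≠ 0 := NN_ne r k c P Q hq0' hkne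
  have hH1 : ∀ h, 1 ≤ H h := by
    intro h
    refine le_trans ?_ (le_max_right _ _)
    have : 1 ≤ |Q h| := Int.one_le_abs (hq0' h)
    exact_mod_cast this
  have hHexp : ∀ h, H h = Real.exp (N h) := fun h => by
    rw [hN]
    simp only
    rw [Real.exp_log (by linarith [hH1 h])]
  set T : ℝ := R * ((1 / 2 - τ) * m - τ) with hT
  -- the bound for J
  have hJb : ∀ (v : ℝ) (x : K), 0 ≤ v → Polynomial.aeval x g = 0 → ∀ J ∈ Box r,
      GG r c x J ≠ 0 → (∀ h, k h ≤ J h) →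
      ∏ h, (Real.exp (-(v * N h))) ^ (J h - k h) ≤ Real.exp (-(v * T)) := by
    intro v x hv hx J hJ hG hkJ
    refine delta_le r k J N hr R hr1 hRpos.le v hv τ τ ?_ hk hkJ
    by_contra hlt'
    push Not at hlt'
    exact hG (hcG K x hx J hJ hlt')
  have harch : f0 ((NN r k c P Q : ℤ) : K) ≤ A ^ (∑ h, r h) * (∏ h, H h ^ r h) *
      Real.exp (-(w0 * T)) := by
    refine arch_le f0 r k c P Q ξ0 B C hB hB0 hC hcC H (fun h => Real.exp (-(w0 * N h))) hH1
      (fun h => le_max_right _ _) (fun h => (Real.exp_pos _).le) (fun h => hle0 _) _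
      (Real.exp_pos _).le (hJb w0 ξ0 hw0 hξ0)
  have hnon : ∀ i, fs i ((NN r k c P Q : ℤ) : K) ≤ Real.exp (-(w i * T)) := by
    intro i
    exact nonarch_le (fs i) (hna i) (hint i) r k c P Q (ξ i) (hB1 i)
      (fun h => Real.exp (-(w i * N h))) (fun h => hle _ i) _
      (Real.exp_pos _).le (hJb (w i) (ξ i) (hw i) (hξ i))
  have hfin := hprod _ hNN
  have h1 : f0 ((NN r k c P Q : ℤ) : K) * ∏ i, fs i ((NN r k c P Q : ℤ) : K) ≤
      (A ^ (∑ h, r h) * (∏ h, H h ^ r h) * Real.exp (-(w0 * T))) *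
        ∏ i, Real.exp (-(w i * T)) := by
    refine mul_le_mul harch (Finset.prod_le_prod (fun i _ => (fs i).nonneg _) fun i _ => hnon i)
      (Finset.prod_nonneg fun i _ => (fs i).nonneg _) ?_
    have : ∀ h, 0 ≤ H h := fun h => by linarith [hH1 h]
    have h2 : 0 ≤ ∏ h, H h ^ r h := Finset.prod_nonneg fun h _ => pow_nonneg (this h) _
    have h3 : 0 ≤ A := by linarith
    positivity
  have h2 : (A ^ (∑ h, r h) * (∏ h, H h ^ r h) * Real.exp (-(w0 * T))) *
        ∏ i, Real.exp (-(w i * T)) =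
      Real.exp (((∑ h, r h : ℕ) : ℝ) * Real.log A + ∑ h, (r h : ℝ) * N h -
        (w0 + ∑ i, w i) * T) := by
    have e1 : A ^ (∑ h, r h) = Real.exp (((∑ h, r h : ℕ) : ℝ) * Real.log A) := by
      rw [Real.exp_nat_mul, Real.exp_log (by linarith)]
    have e2 : ∏ h, H h ^ r h = Real.exp (∑ h, (r h : ℝ) * N h) := by
      rw [Real.exp_sum]
      refine Finset.prod_congr rfl fun h _ => ?_
      rw [Real.exp_nat_mul, ← hHexp]
    have e3 : ∏ i, Real.exp (-(w i * T)) = Real.exp (-((∑ i, w i) * T)) := by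
      rw [← Real.exp_sum]
      congr 1
      rw [Finset.sum_mul, Finset.sum_neg_distrib]
    rw [e1, e2, e3, ← Real.exp_add, ← Real.exp_add, ← Real.exp_add]
    congr 1
    ring
  have h3 : 0 ≤ ((∑ h, r h : ℕ) : ℝ) * Real.log A + ∑ h, (r h : ℝ) * N h -
        (w0 + ∑ i, w i) * T := by
    have := hfin.trans (h1.trans h2.le)
    by_contra hneg
    push Not at hneg
    have h9 := Real.exp_lt_exp.2 hneg
    rw [Real.exp_zero] at h9
    linarith
  have hlogA : 0 ≤ Real.log A := Real.log_nonneg hA1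
  have h4 : ((∑ h, r h : ℕ) : ℝ) * Real.log A ≤ (m * R0 / Nm) * Real.log A :=
    mul_le_mul_of_nonneg_right hsumr hlogA
  have h5 : ∑ h, (r h : ℝ) * N h ≤ m * R0 := by
    calc ∑ h, (r h : ℝ) * N h ≤ ∑ _h : Fin m, R0 := Finset.sum_le_sum fun h _ => hr2 h
      _ = m * R0 := by
          rw [Finset.sum_const, Finset.card_univ, Fintype.card_fin, nsmul_eq_mul]
  -- T ≥ m R (1/2 - 2τ)
  have hT1 : m * R0 * ((1 - τ) * (1 / 2 - 2 * τ)) ≤ T := by
    rw [hT, hR]
    have : τ ≤ τ * m := le_mul_of_one_le_right hτ.le hmR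
    have h6 : 0 ≤ (1 - τ) * R0 := by
      have : 0 ≤ 1 - τ := by linarith
      positivity
    calc m * R0 * ((1 - τ) * (1 / 2 - 2 * τ)) = (1 - τ) * R0 * ((1 / 2 - τ) * m - τ * m) := by ring
      _ ≤ (1 - τ) * R0 * ((1 / 2 - τ) * m - τ) :=
          mul_le_mul_of_nonneg_left (by linarith) h6
  have hτ4 : 4 * τ ≤ 1 := by
    rw [hτdef, ← mul_div_assoc, div_le_one (by positivity)]
    linarith
  have hTpos : 0 ≤ T := by
    refine le_trans ?_ hT1
    have h6 : 0 ≤ 1 - τ := by linarith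
    have h7 : 0 ≤ 1 / 2 - 2 * τ := by linarith
    positivity
  have h6 : (2 + ε) * (m * R0 * ((1 - τ) * (1 / 2 - 2 * τ))) ≤ (w0 + ∑ i, w i) * T :=
    (mul_le_mul_of_nonneg_left hT1 (by positivity)).trans (mul_le_mul_of_nonneg_right hsum hTpos)
  have h7 : 1 + ε / 4 ≤ (2 + ε) * ((1 - τ) * (1 / 2 - 2 * τ)) := by
    have h8 : (1 - 5 * τ) / 2 ≤ (1 - τ) * (1 / 2 - 2 * τ) := by
      have e1 : (1 - τ) * (1 / 2 - 2 * τ) - (1 - 5 * τ) / 2 = 2 * τ ^ 2 := by ring
      have e2 : 0 ≤ 2 * τ ^ 2 := by positivity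
      linarith
    have h9 := mul_le_mul_of_nonneg_left h8 (by positivity : (0 : ℝ) ≤ 2 + ε)
    have h10 : (2 + ε) * ((1 - 5 * τ) / 2) = 1 + ε / 4 := by
      have : (2 + ε) * ((1 - 5 * τ) / 2) = ((2 + ε) - (2 + ε) * 5 * τ) / 2 := by ring
      rw [this, hτe]
      ring
    linarith
  have hmR0 : 0 < m * R0 := by positivity
  have h8 : m * R0 * (1 + ε / 4) ≤ (w0 + ∑ i, w i) * T := by
    refine le_trans ?_ h6
    calc m * R0 * (1 + ε / 4) ≤ m * R0 * ((2 + ε) * ((1 - τ) * (1 / 2 - 2 * τ))) :=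
          mul_le_mul_of_nonneg_left h7 hmR0.le
      _ = _ := by ring
  have h9 : m * R0 * (ε / 4) ≤ m * R0 * (Real.log A / Nm) := by
    have : (m * R0 / Nm) * Real.log A = m * R0 * (Real.log A / Nm) := by ring
    linarith
  have h10 : ε / 4 ≤ Real.log A / Nm := le_of_mul_le_mul_left h9 hmR0
  rw [le_div_iff₀ hNmpos] at h10
  have h11 : (4 * Real.log A / ε + 1) * ε ≤ Nm * ε := mul_le_mul_of_nonneg_right hNm4 hε.le
  have h12 : (4 * Real.log A / ε + 1) * ε = 4 * Real.log A + ε := by field_simp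
  linarith

end Pool.Agent.W180.RR
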