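import Pool.Agent.W180.RR.Plc

set_option autoImplicit false

/-!
Approximation of the intersections of several divisors.
-/

namespace Pool.Agent.W180.RR

open Finset MvPolynomial NumberField IsDedekindDomain
open Pool.Agent.W180.OP Pool.Agent.W180.TP
open scoped LinearAlgebra.Projectivization

section gen

variable {K : Type} [Field K]

/-- all absolute values -/
noncomputable def Sys.fa {ι : Type} [Fintype ι] (Y : Sys K ι) (o : Option ι) :
    AbsoluteValue K ℝ := o.elim Y.f0 Y.fs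

lemma nrm_rpow {f g : AbsoluteValue K ℝ} {κ : ℝ} (hκ : 0 < κ) (h : ∀ x, f x = g x ^ κ) {n : ℕ}
    {x : Fin n → K} (hx : x ≠ 0) : nrm f x = nrm g x ^ κ := by
  have hn : 0 < n := by
    obtain ⟨j, -⟩ := Function.ne_iff.1 hx
    exact Fin.pos j
  obtain ⟨j, hj⟩ := exists_nrm f hn x
  obtain ⟨k, hk⟩ := exists_nrm g hn x
  apply le_antisymm
  · rw [← hj, h]
    exact Real.rpow_le_rpow (g.nonneg _) (le_nrm g x j) hκ.le
  · rw [← hk, ← h]
    exact le_nrm f x k

lemma rho_rpow {f g : AbsoluteValue K ℝ} {κ : ℝ} (hκ : 0 < κ) (h : ∀ x, f x = g x ^ κ) {n : ℕ}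
    {x : Fin n → K} (hx : x ≠ 0) (d : ℕ) (F : MvPolynomial (Fin n) K) :
    rho f d F x = rho g d F x ^ κ := by
  unfold rho
  rw [nrm_rpow hκ h hx, h, Real.div_rpow (g.nonneg _) (pow_nonneg (nrm_nonneg _ _) _),
    ← Real.rpow_natCast, ← Real.rpow_natCast, ← Real.rpow_mul (nrm_nonneg _ _),
    ← Real.rpow_mul (nrm_nonneg _ _), mul_comm κ]

lemma del_rpow {f g : AbsoluteValue K ℝ} {κ : ℝ} (hκ : 0 < κ) (h : ∀ x, f x = g x ^ κ) {n : ℕ}
    {x : Fin n → K} (hx : x ≠ 0) (y : Fin n → K) :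
    del f y x = del g y x ^ κ := by
  have hn : 0 < n := by
    obtain ⟨j, -⟩ := Function.ne_iff.1 hx
    exact Fin.pos j
  obtain ⟨j, hj⟩ := exists_del f hn y x
  obtain ⟨k, hk⟩ := exists_del g hn y x
  apply le_antisymm
  · rw [← hj, rho_rpow hκ h hx]
    exact Real.rpow_le_rpow (rho_nonneg _ _ _ _) (le_del g y x j) hκ.le
  · rw [← hk, ← rho_rpow hκ h hx]
    exact le_del f y x k

lemma del_le (f : AbsoluteValue K ℝ) {n : ℕ} {x : Fin n → K} (hx : x ≠ 0) (y : Fin n → K) :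
    del f y x ≤ 2 * nrm f y := by
  have hn : 0 < n := by
    obtain ⟨j, -⟩ := Function.ne_iff.1 hx
    exact Fin.pos j
  obtain ⟨j, hj⟩ := exists_del f hn y x
  rw [← hj]
  unfold rho
  rw [aeval_eqn, pow_one, div_le_iff₀ (nrm_pos f hx)]
  have h1 : f (x j.1 * algebraMap K K (y j.2) - x j.2 * algebraMap K K (y j.1)) ≤
      f (x j.1) * f (y j.2) + f (x j.2) * f (y j.1) := by
    rw [sub_eq_add_neg]
    refine (f.add_le _ _).trans ?_
    rw [AbsoluteValue.map_neg, map_mul, map_mul]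
    rfl
  have h2 : f (x j.1) * f (y j.2) ≤ nrm f x * nrm f y :=
    mul_le_mul (le_nrm f x _) (le_nrm f y _) (f.nonneg _) (nrm_nonneg _ _)
  have h3 : f (x j.2) * f (y j.1) ≤ nrm f x * nrm f y :=
    mul_le_mul (le_nrm f x _) (le_nrm f y _) (f.nonneg _) (nrm_nonneg _ _)
  linarith

/-- the nearest indices -/
lemma exists_near {q : ℕ} (r : Fin q → ℝ) : ∀ k : ℕ, k ≤ q → ∃ I : Finset (Fin q), I.card = k ∧
    ∀ j ∈ I, ∀ i ∉ I, r j ≤ r i := by
  classical
  intro k
  induction k with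
  | zero => exact fun _ => ⟨∅, rfl, fun j hj => absurd hj (Finset.notMem_empty _)⟩
  | succ k ih =>
    intro hk
    obtain ⟨I, hI, h⟩ := ih (by omega)
    have hne : (Finset.univ \ I).Nonempty := by
      rw [← Finset.card_pos, Finset.card_sdiff_of_subset (Finset.subset_univ _), Finset.card_univ,
        Fintype.card_fin]
      omega
    obtain ⟨i0, hi0, hmin⟩ := Finset.exists_min_image (Finset.univ \ I) r hne
    have hi0' : i0 ∉ I := (Finset.mem_sdiff.1 hi0).2
    refine ⟨insert i0 I, by rw [Finset.card_insert_of_notMem hi0', hI], fun j hj i hi => ?_⟩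
    rw [Finset.mem_insert, not_or] at hi
    rcases Finset.mem_insert.1 hj with rfl | hj
    · exact hmin i (Finset.mem_sdiff.2 ⟨Finset.mem_univ _, hi.2⟩)
    · exact h j hj i hi.2

end gen

variable {K : Type} [Field K] [NumberField K]

/-- the distances to finitely many points -/
theorem ridU {ι : Type} [Fintype ι] (Y : Sys K ι) {n : ℕ} (T : Finset (ℙ K (Fin n → K)))
    (ε : ℝ) (hε : 0 < ε) :
    ∃ C : ℝ, 0 ≤ C ∧ ∀ x : Fin n → ℤ, Prim x → (∀ y ∈ T, ¬ ∃ c : K, ck K x = c • y.rep) →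
      ∃ U : Option ι → ℝ, (∀ o, 0 ≤ U o) ∧
        (∀ o, ∀ y ∈ T, - Real.log (del (Y.fa o) y.rep (ck K x)) ≤ U o) ∧
        ∑ o, U o ≤ (2 + ε) * Real.log (hgt x) + C := by
  classical
  rcases T.eq_empty_or_nonempty with hTe | hTe
  · refine ⟨0, le_rfl, fun x hx _ => ⟨fun _ => 0, fun _ => le_rfl, fun o y hy => ?_, ?_⟩⟩
    · rw [hTe] at hy
      exact absurd hy (Finset.notMem_empty _)
    · rw [Finset.sum_const_zero, add_zero]
      have := Real.log_nonneg (hgt_ge_one hx.ne)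
      positivity
  obtain ⟨C, hC0, hC⟩ := proj_all Y (T.image fun y => y.rep) (by
    intro y hy
    obtain ⟨z, -, rfl⟩ := Finset.mem_image.1 hy
    exact z.rep_nonzero) ε hε
  set B : Option ι → ℝ := fun o => 1 + ∑ y ∈ T, 2 * nrm (Y.fa o) y.rep with hB
  have hB1 : ∀ o, 1 ≤ B o := fun o => by
    have : 0 ≤ ∑ y ∈ T, 2 * nrm (Y.fa o) y.rep :=
      Finset.sum_nonneg fun y _ => mul_nonneg zero_le_two (nrm_nonneg _ _)
    simp only [hB]
    linarith
  have hBl : ∀ o, 0 ≤ Real.log (B o) := fun o => Real.log_nonneg (hB1 o)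
  refine ⟨C + ∑ o, Real.log (B o), add_nonneg hC0 (Finset.sum_nonneg fun o _ => hBl o),
    fun x hx hxT => ?_⟩
  have hxK : ck K x ≠ 0 := ck_ne hx.ne
  have hpos : ∀ o, ∀ y ∈ T, 0 < del (Y.fa o) y.rep (ck K x) := by
    intro o y hy
    refine del_pos _ y.rep_nonzero hxK ?_
    rintro ⟨c, hc⟩
    exact hxT y hy ⟨c, hc⟩
  have hmin : ∀ o, ∃ y ∈ T, ∀ z ∈ T, del (Y.fa o) y.rep (ck K x) ≤ del (Y.fa o) z.rep (ck K x) :=
    fun o => Finset.exists_min_image T (fun y => del (Y.fa o) y.rep (ck K x)) hTe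
  choose y hyT hy using hmin
  refine ⟨fun o => max 0 (- Real.log (del (Y.fa o) (y o).rep (ck K x))), fun o => le_max_left _ _,
    fun o z hz => ?_, ?_⟩
  · refine le_trans ?_ (le_max_right _ _)
    have := Real.log_le_log (hpos o _ (hyT o)) (hy o z hz)
    linarith
  · have h1 : ∀ o, max 0 (- Real.log (del (Y.fa o) (y o).rep (ck K x))) ≤
        - Real.log (del (Y.fa o) (y o).rep (ck K x)) + Real.log (B o) := by
      intro o
      refine max_le ?_ (le_add_of_nonneg_right (hBl o))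
      have h2 : del (Y.fa o) (y o).rep (ck K x) ≤ B o := by
        refine (del_le _ hxK _).trans ?_
        have h3 : 2 * nrm (Y.fa o) (y o).rep ≤ ∑ y ∈ T, 2 * nrm (Y.fa o) y.rep :=
          Finset.single_le_sum (f := fun y => 2 * nrm (Y.fa o) y.rep)
            (fun _ _ => mul_nonneg zero_le_two (nrm_nonneg _ _)) (hyT o)
        simp only [hB]
        linarith
      have h4 := Real.log_le_log (hpos o _ (hyT o)) h2
      linarith
    refine (Finset.sum_le_sum fun o _ => h1 o).trans ?_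
    rw [Finset.sum_add_distrib]
    have h2 := hC (y none).rep (fun i => (y (some i)).rep)
      (Finset.mem_image_of_mem _ (hyT none)) (fun i => Finset.mem_image_of_mem _ (hyT (some i)))
      x hx (by
        intro z hz
        obtain ⟨z', hz', rfl⟩ := Finset.mem_image.1 hz
        exact hxT z' hz')
    have h3 : ∑ o, - Real.log (del (Y.fa o) (y o).rep (ck K x)) =
        - Real.log (del Y.f0 (y none).rep (ck K x)) +
          ∑ i, - Real.log (del (Y.fs i) (y (some i)).rep (ck K x)) := by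
      rw [Fintype.sum_option]
      rfl
    rw [h3]
    linarith

/-- local statement: the last of `N` divisors -/
theorem locN {n q : ℕ} {κ : Type} [Fintype κ] (G : κ → MvPolynomial (Fin n) K)
    (g : κ → ℕ) (hG : ∀ k, (G k).IsHomogeneous (g k)) (F : Fin q → MvPolynomial (Fin n) K)
    (d : Fin q → ℕ) (hF : ∀ i, (F i).IsHomogeneous (d i)) (μ N : ℕ)
    (hred : ∀ J : Finset (Fin q), J.card = N → ∀ a,
      ∀ Q ∈ (Ideal.span (Set.range (Sum.elim (fun j : J => F j.1) G))).radical ^ μ,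
      ∃ M : ℕ, X a ^ M * Q ∈ Ideal.span (Set.range (Sum.elim (fun j : J => F j.1) G)))
    (T : Finset (ℙ K (Fin n → K)))
    (hT : ∀ J : Finset (Fin q), J.card = N → ∀ (L : Type) [Field L] [Algebra K L]
      (x : Fin n → L), x ≠ 0 → (∀ j ∈ J, aeval x (F j) = 0) → (∀ k, aeval x (G k) = 0) →
        ∃ y ∈ T, ∃ c : L, x = c • fun b => algebraMap K L (y.rep b))
    (f : AbsoluteValue K ℝ) (p : Pl K) (s : ℝ) (hs : 0 < s) (hf : ∀ x, f x = av p x ^ s) :
    ∃ C : ℝ, 0 ≤ C ∧ ∀ x : Fin n → K, x ≠ 0 → (∀ k, aeval x (G k) = 0) →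
      (∀ i, aeval x (F i) ≠ 0) → (∀ y ∈ T, ¬ ∃ c : K, x = c • y.rep) →
      ∀ U : ℝ, 0 ≤ U → (∀ y ∈ T, - Real.log (del f y.rep x) ≤ U) →
      ∀ J : Finset (Fin q), J.card = N → ∀ i ∈ J,
        (∀ j ∈ J, rho f (d j) (F j) x ≤ rho f (d i) (F i) x) →
        - Real.log (rho f (d i) (F i) x) ≤ C + μ * U := by
  classical
  have hnear : ∀ J : {J : Finset (Fin q) // J.card = N}, ∃ R : ℝ, 1 ≤ R ∧ ∀ x : Fin n → K,
      x ≠ 0 → (∀ k, aeval x (G k) = 0) →
        (1 ≤ R * ∑ j : J.1, rho (av p) (d j.1) (F j.1) x) ∨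
        ∃ y ∈ T, del (av p) y.rep x ^ μ ≤ R * ∑ j : J.1, rho (av p) (d j.1) (F j.1) x := by
    intro J
    obtain ⟨C, hC0, hC⟩ := near (fun j : J.1 => F j.1) (fun j : J.1 => d j.1)
      (fun j => hF j.1) G g hG μ (hred J.1 J.2) T (by
        intro L _ _ x hx h1 h2
        exact hT J.1 J.2 L x hx (fun j hj => h1 ⟨j, hj⟩) h2)
    obtain ⟨R, hR, h⟩ := hC K p
    exact ⟨R, hR.1, h⟩
  choose R hR1 hR using hnear
  set RR : ℝ := 1 + (∑ J, R J) * (N + 1) with hRR
  have hRs : 0 ≤ ∑ J, R J := Finset.sum_nonneg fun J _ => by linarith [hR1 J]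
  have hRR1 : 1 ≤ RR := by
    have : 0 ≤ (∑ J, R J) * ((N : ℝ) + 1) := by positivity
    linarith
  have hlogR : 0 ≤ Real.log RR := Real.log_nonneg hRR1
  refine ⟨s * Real.log RR, by positivity, fun x hx hGx hFx hxT U hU hUT J hJ i hi hmin => ?_⟩
  have hri := rho_pos (av p) (d i) (F i) hx (hFx i)
  have hmin' : ∀ j ∈ J, rho (av p) (d j) (F j) x ≤ rho (av p) (d i) (F i) x := by
    intro j hj
    have h1 := hmin j hj
    rw [rho_rpow hs hf hx, rho_rpow hs hf hx] at h1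
    exact (Real.rpow_le_rpow_iff (rho_nonneg _ _ _ _) (rho_nonneg _ _ _ _) hs).1 h1
  have hsum : R ⟨J, hJ⟩ * ∑ j : J, rho (av p) (d j.1) (F j.1) x ≤
      RR * rho (av p) (d i) (F i) x := by
    have h1 : ∑ j : J, rho (av p) (d j.1) (F j.1) x ≤ ∑ _j : J, rho (av p) (d i) (F i) x :=
      Finset.sum_le_sum fun j _ => hmin' j.1 j.2
    rw [Finset.sum_const, Finset.card_univ, Fintype.card_coe, hJ, nsmul_eq_mul] at h1
    have h2 : R ⟨J, hJ⟩ ≤ ∑ J, R J :=
      Finset.single_le_sum (f := fun J => R J) (fun J _ => by linarith [hR1 J])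
        (Finset.mem_univ _)
    have h3 := hR1 ⟨J, hJ⟩
    calc R ⟨J, hJ⟩ * ∑ j : J, rho (av p) (d j.1) (F j.1) x ≤
          R ⟨J, hJ⟩ * (N * rho (av p) (d i) (F i) x) :=
          mul_le_mul_of_nonneg_left h1 (by linarith)
      _ ≤ (∑ J, R J) * (N * rho (av p) (d i) (F i) x) :=
          mul_le_mul_of_nonneg_right h2 (by positivity)
      _ ≤ RR * rho (av p) (d i) (F i) x := by
          rw [hRR]
          have h4 : 0 ≤ (∑ J, R J) * rho (av p) (d i) (F i) x := by positivity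
          nlinarith
  have hRp : 0 < RR := by linarith
  rw [rho_rpow hs hf hx, Real.log_rpow hri]
  have hμU : 0 ≤ (μ : ℝ) * U := by positivity
  rcases hR ⟨J, hJ⟩ x hx hGx with h | ⟨y, hy, h⟩
  · have h2 := Real.log_le_log one_pos (h.trans hsum)
    rw [Real.log_one, Real.log_mul hRp.ne' hri.ne'] at h2
    have h3 := mul_le_mul_of_nonneg_left h2 hs.le
    rw [mul_zero, mul_add] at h3
    linarith
  · have hd : 0 < del (av p) y.rep x := del_pos _ y.rep_nonzero hx (by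
      rintro ⟨c, hc⟩
      exact hxT y hy ⟨c, hc⟩)
    have h2 := Real.log_le_log (pow_pos hd μ) (h.trans hsum)
    rw [Real.log_pow, Real.log_mul hRp.ne' hri.ne'] at h2
    have h3 := mul_le_mul_of_nonneg_left h2 hs.le
    have h4 := hUT y hy
    rw [del_rpow hs hf hx, Real.log_rpow hd] at h4
    have h5 := mul_le_mul_of_nonneg_left h4 (Nat.cast_nonneg (α := ℝ) μ)
    rw [mul_add] at h3
    linarith

end Pool.Agent.W180.RR
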