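import Pool.Agent.W180.RR.All

set_option autoImplicit false

/-!
The absolute values of a number field above the places `S ∪ {∞}` of `ℚ`.
-/

namespace Pool.Agent.W180.RR

open Finset MvPolynomial NumberField IsDedekindDomain
open Pool.Agent.W180.OP Pool.Agent.W180.TP

/-- power of a nonarchimedean absolute value -/
noncomputable def powAV {K : Type} [Field K] (f : AbsoluteValue K ℝ) (hf : IsNonarchimedean f)
    (κ : ℝ) (hκ : 0 < κ) : AbsoluteValue K ℝ where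
  toFun x := f x ^ κ
  map_mul' x y := by rw [map_mul, Real.mul_rpow (f.nonneg _) (f.nonneg _)]
  nonneg' x := Real.rpow_nonneg (f.nonneg _) _
  eq_zero' x := by rw [Real.rpow_eq_zero (f.nonneg _) hκ.ne', AbsoluteValue.eq_zero]
  add_le' x y := by
    rcases le_total (f x) (f y) with h | h
    · have h1 := hf x y
      rw [max_eq_right h] at h1
      calc f (x + y) ^ κ ≤ f y ^ κ := Real.rpow_le_rpow (f.nonneg _) h1 hκ.le
        _ ≤ f x ^ κ + f y ^ κ := le_add_of_nonneg_left (Real.rpow_nonneg (f.nonneg _) _)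
    · have h1 := hf x y
      rw [max_eq_left h] at h1
      calc f (x + y) ^ κ ≤ f x ^ κ := Real.rpow_le_rpow (f.nonneg _) h1 hκ.le
        _ ≤ f x ^ κ + f y ^ κ := le_add_of_nonneg_right (Real.rpow_nonneg (f.nonneg _) _)

lemma powAV_apply {K : Type} [Field K] (f : AbsoluteValue K ℝ) (hf : IsNonarchimedean f)
    (κ : ℝ) (hκ : 0 < κ) (x : K) : powAV f hf κ hκ x = f x ^ κ := rfl

lemma powAV_na {K : Type} [Field K] (f : AbsoluteValue K ℝ) (hf : IsNonarchimedean f)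
    (κ : ℝ) (hκ : 0 < κ) : IsNonarchimedean (powAV f hf κ hκ) := by
  intro x y
  simp only [powAV_apply]
  have h1 := hf x y
  rcases le_total (f x) (f y) with h | h
  · rw [max_eq_right h] at h1
    exact (Real.rpow_le_rpow (f.nonneg _) h1 hκ.le).trans (le_max_right _ _)
  · rw [max_eq_left h] at h1
    exact (Real.rpow_le_rpow (f.nonneg _) h1 hκ.le).trans (le_max_left _ _)

variable {K : Type} [Field K] [NumberField K]

lemma fv_na (v : HeightOneSpectrum (𝓞 K)) : IsNonarchimedean (fv v) := by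
  intro x y
  exact FinitePlace.add_le (FinitePlace.mk v) x y

lemma fv_int (v : HeightOneSpectrum (𝓞 K)) (n : ℤ) : fv v (n : K) ≤ 1 := by
  rw [fv_apply]
  exact fin_le_one (FinitePlace.mk v) (isIntegral_algebraMap (R := ℤ) (A := K) (x := n))

theorem exists_v (ℓ : ℕ) (hℓ : ℓ.Prime) : ∃ v : HeightOneSpectrum (𝓞 K), fv v (ℓ : K) < 1 := by
  have hpr : Prime (ℓ : ℤ) := Nat.prime_iff_prime_int.1 hℓ
  have hmax : (Ideal.span {(ℓ : ℤ)}).IsMaximal := by
    refine PrincipalIdealRing.isMaximal_of_irreducible hpr.irreducible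
  obtain ⟨P, hP, hover⟩ := Ideal.exists_maximal_ideal_liesOver_of_isIntegral
    (R := ℤ) (S := 𝓞 K) (Ideal.span {(ℓ : ℤ)})
  have hmem : (ℓ : 𝓞 K) ∈ P := by
    have h1 : (ℓ : ℤ) ∈ Ideal.span {(ℓ : ℤ)} := Ideal.mem_span_singleton_self _
    rw [hover.over] at h1
    rw [Ideal.under_def, Ideal.mem_comap] at h1
    simpa using h1
  have hne : P ≠ ⊥ := by
    rintro rfl
    rw [Ideal.mem_bot] at hmem
    exact hℓ.ne_zero (by exact_mod_cast hmem)
  refine ⟨⟨P, hP.isPrime, hne⟩, ?_⟩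
  rw [fv_apply, FinitePlace.mk_apply]
  have h2 := (FinitePlace.norm_lt_one_iff_mem K (⟨P, hP.isPrime, hne⟩ :
    HeightOneSpectrum (𝓞 K)) (ℓ : 𝓞 K)).2 hmem
  simpa using h2

theorem exists_kappa (v : HeightOneSpectrum (𝓞 K)) (ℓ : ℕ) (hℓ : ℓ.Prime)
    (hv : fv v (ℓ : K) < 1) : ∃ κ : ℝ, 0 < κ ∧ ∀ n : ℤ,
      fv v (n : K) ^ κ = (padicNorm ℓ (n : ℚ) : ℝ) := by
  have : Fact ℓ.Prime := ⟨hℓ⟩
  have hℓK : (ℓ : K) ≠ 0 := by exact_mod_cast hℓ.ne_zero
  have hc : 0 < fv v (ℓ : K) := (fv v).pos hℓK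
  have hlogc : Real.log (fv v (ℓ : K)) < 0 := Real.log_neg hc hv
  have hℓ1 : (1 : ℝ) < ℓ := by exact_mod_cast hℓ.one_lt
  have hlogℓ : 0 < Real.log ℓ := Real.log_pos hℓ1
  set κ : ℝ := Real.log ℓ / (- Real.log (fv v (ℓ : K))) with hκ
  have hκ0 : 0 < κ := div_pos hlogℓ (by linarith)
  have hcκ : fv v (ℓ : K) ^ κ = (ℓ : ℝ)⁻¹ := by
    rw [Real.rpow_def_of_pos hc]
    have : Real.log (fv v (ℓ : K)) * κ = - Real.log ℓ := by
      rw [hκ, div_neg, mul_neg, mul_div_cancel₀ _ hlogc.ne]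
    rw [this, Real.exp_neg, Real.exp_log (by linarith)]
  refine ⟨κ, hκ0, fun n => ?_⟩
  by_cases hn : n = 0
  · subst hn
    rw [Int.cast_zero, map_zero, Real.zero_rpow hκ0.ne']
    simp
  · have hfin : FiniteMultiplicity (ℓ : ℤ) n := Int.finiteMultiplicity_iff.2
      ⟨by simpa using hℓ.one_lt.ne', hn⟩
    obtain ⟨m, hm, hmd⟩ := hfin.exists_eq_pow_mul_and_not_dvd
    set a := multiplicity (ℓ : ℤ) n
    have hm1 : fv v (m : K) = 1 := by
      apply le_antisymm (fv_int v m)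
      have hcop : IsCoprime (ℓ : ℤ) m :=
        (Nat.prime_iff_prime_int.1 hℓ).irreducible.coprime_iff_not_dvd.2 hmd
      obtain ⟨b, c, hbc⟩ := hcop
      have h1 : ((b : K) * ℓ) + (c : K) * m = 1 := by exact_mod_cast congrArg (Int.cast : ℤ → K) hbc
      have h2 := fv_na v ((b : K) * ℓ) ((c : K) * m)
      rw [h1, map_one, map_mul, map_mul] at h2
      have h3 : fv v (b : K) * fv v (ℓ : K) < 1 := by
        calc fv v (b : K) * fv v (ℓ : K) ≤ 1 * fv v (ℓ : K) :=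
              mul_le_mul_of_nonneg_right (fv_int v b) hc.le
          _ < 1 := by linarith
      have h4 : 1 ≤ fv v (c : K) * fv v (m : K) := by
        rcases le_max_iff.1 h2 with h | h
        · linarith
        · exact h
      calc (1 : ℝ) ≤ fv v (c : K) * fv v (m : K) := h4
        _ ≤ 1 * fv v (m : K) := mul_le_mul_of_nonneg_right (fv_int v c) ((fv v).nonneg _)
        _ = _ := one_mul _
    have h1 : fv v (n : K) = fv v (ℓ : K) ^ a := by
      rw [hm]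
      push_cast
      rw [map_mul, map_pow, hm1, mul_one]
    have h2 : padicNorm ℓ (n : ℚ) = ((ℓ : ℚ)⁻¹) ^ a := by
      rw [hm]
      push_cast
      have e1 : padicNorm ℓ ((m : ℤ) : ℚ) = 1 := (padicNorm.int_eq_one_iff m).2 hmd
      rw [padicNorm.mul, e1, mul_one]
      have e2 : padicNorm ℓ ((ℓ : ℚ) ^ a) = (padicNorm ℓ (ℓ : ℚ)) ^ a := by
        induction a with
        | zero => simp
        | succ a ih => rw [pow_succ, padicNorm.mul, ih, pow_succ]
      rw [e2, padicNorm.padicNorm_p_of_prime]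
    rw [h1, h2, ← Real.rpow_natCast, ← Real.rpow_mul hc.le, mul_comm, Real.rpow_mul hc.le, hcκ]
    push_cast
    rw [Real.rpow_natCast]

/-- the product formula inequality over `ℚ` -/
theorem prod_ge (S : Finset ℕ) (hS : ∀ ℓ ∈ S, ℓ.Prime) (n : ℤ) (hn : n ≠ 0) :
    1 ≤ |(n : ℝ)| * ∏ ℓ ∈ S, (padicNorm ℓ (n : ℚ) : ℝ) := by
  classical
  have h1 : ∏ ℓ ∈ S, (ℓ : ℤ) ^ padicValInt ℓ n ∣ n := by
    refine Finset.prod_dvd_of_coprime ?_ fun ℓ hℓ => padicValInt_dvd (p := ℓ) n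
    intro a ha b hb hab
    exact IsCoprime.pow (Nat.isCoprime_iff_coprime.2 ((Nat.coprime_primes (hS a ha) (hS b hb)).2 hab))
  have h2 : ∀ ℓ ∈ S, (padicNorm ℓ (n : ℚ) : ℝ) = ((ℓ : ℝ) ^ padicValInt ℓ n)⁻¹ := by
    intro ℓ hℓ
    rw [padicNorm.eq_zpow_of_nonzero (by exact_mod_cast hn), padicValRat.of_int]
    push_cast
    rw [zpow_neg, zpow_natCast]
  rw [Finset.prod_congr rfl h2, Finset.prod_inv_distrib]
  have h3 : 0 < ∏ ℓ ∈ S, (ℓ : ℝ) ^ padicValInt ℓ n :=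
    Finset.prod_pos fun ℓ hℓ => pow_pos (by exact_mod_cast (hS ℓ hℓ).pos) _
  rw [← div_eq_mul_inv, one_le_div h3]
  have h4 := Int.le_of_dvd (abs_pos.2 hn) ((dvd_abs _ _).2 h1)
  exact_mod_cast h4

/-- the data of places -/
theorem exists_sys (K : Type) [Field K] [NumberField K] (S : Finset ℕ) (hS : ∀ ℓ ∈ S, ℓ.Prime) :
    ∃ (Y : Sys K S) (w : InfinitePlace K) (v : S → HeightOneSpectrum (𝓞 K)) (κ : S → ℝ),
      (∀ i, 0 < κ i) ∧ Y.f0 = w.1 ∧ (∀ i x, Y.fs i x = fv (v i) x ^ κ i) ∧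
      (∀ i (n : ℤ), Y.fs i (n : K) = (padicNorm i.1 (n : ℚ) : ℝ)) := by
  classical
  obtain ⟨w⟩ : Nonempty (InfinitePlace K) := inferInstance
  have hv : ∀ i : S, ∃ v : HeightOneSpectrum (𝓞 K), fv v (i.1 : K) < 1 := fun i =>
    exists_v i.1 (hS i.1 i.2)
  choose v hv using hv
  have hk : ∀ i : S, ∃ κ : ℝ, 0 < κ ∧ ∀ n : ℤ,
      fv (v i) (n : K) ^ κ = (padicNorm i.1 (n : ℚ) : ℝ) := fun i =>
    exists_kappa (v i) i.1 (hS i.1 i.2) (hv i)
  choose κ hκ hκ2 using hk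
  have hw : ∀ n : ℤ, w.1 (n : K) = |(n : ℝ)| := by
    intro n
    have h1 : w (n : K) = |(n : ℝ)| := by
      rw [← InfinitePlace.norm_embedding_eq, map_intCast]
      exact Complex.norm_intCast n
    exact h1
  refine ⟨⟨w.1, fun i => powAV (fv (v i)) (fv_na (v i)) (κ i) (hκ i), fun i => powAV_na _ _ _ _,
    fun i n => ?_, hw, fun n hn => ?_⟩, w, v, κ, hκ, rfl, fun i x => rfl, fun i n => hκ2 i n⟩
  · rw [powAV_apply]
    exact Real.rpow_le_one ((fv (v i)).nonneg _) (fv_int _ _) (hκ i).le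
  · rw [hw]
    have h1 : ∀ i : S, powAV (fv (v i)) (fv_na (v i)) (κ i) (hκ i) (n : K) =
        (padicNorm i.1 (n : ℚ) : ℝ) := fun i => hκ2 i n
    simp_rw [h1]
    rw [Finset.prod_coe_sort S (fun ℓ => (padicNorm ℓ (n : ℚ) : ℝ))]
    exact prod_ge S hS n hn

end Pool.Agent.W180.RR
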