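import Pool.Agent.W180.RR.Rid
import Pool.Agent.W180.TP.Near

set_option autoImplicit false

/-!
The Ridout inequality for points of projective space, by projections to the line.
-/

namespace Pool.Agent.W180.RR

open Finset MvPolynomial
open Pool.Agent.W180.OP Pool.Agent.W180.TP

/-- absolute values of `K` which extend absolute values of `ℚ` -/
structure Sys (K : Type) [Field K] (ι : Type) [Fintype ι] where
  /-- the archimedean one -/
  f0 : AbsoluteValue K ℝ
  /-- the other ones -/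
  fs : ι → AbsoluteValue K ℝ
  na : ∀ i, IsNonarchimedean (fs i)
  int : ∀ i (n : ℤ), fs i (n : K) ≤ 1
  f0i : ∀ n : ℤ, f0 (n : K) = |(n : ℝ)|
  prod : ∀ n : ℤ, n ≠ 0 → 1 ≤ f0 (n : K) * ∏ i, fs i (n : K)

/-- the height of a primitive vector -/
noncomputable def hgt {n : ℕ} (x : Fin n → ℤ) : ℝ := ⨆ j, |(x j : ℝ)|

/-- primitive vectors -/
def Prim {n : ℕ} (x : Fin n → ℤ) : Prop := ∀ g : ℤ, (∀ j, g ∣ x j) → IsUnit g

lemma Prim.bez {n : ℕ} {x : Fin n → ℤ} (h : Prim x) : ∃ c : Fin n → ℤ, ∑ j, c j * x j = 1 := by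
  have hp : (Ideal.span (Set.range x)).IsPrincipal := IsPrincipalIdealRing.principal _
  obtain ⟨g, hg⟩ := hp.principal
  have hdvd : ∀ j, g ∣ x j := by
    intro j
    have h1 : x j ∈ Ideal.span (Set.range x) := Ideal.subset_span ⟨j, rfl⟩
    rw [hg] at h1
    exact Ideal.mem_span_singleton.1 h1
  have hu := h g hdvd
  have h1 : (1 : ℤ) ∈ Ideal.span (Set.range x) := by
    rw [hg]
    exact Ideal.mem_span_singleton.2 hu.dvd
  rw [Ideal.mem_span_range_iff_exists_fun] at h1
  exact h1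

lemma Prim.ne {n : ℕ} {x : Fin n → ℤ} (h : Prim x) : x ≠ 0 := by
  rintro rfl
  obtain ⟨c, hc⟩ := h.bez
  simp at hc

variable {K : Type} [Field K]

/-- the vector over `K` -/
def ck (K : Type) [Field K] {n : ℕ} (x : Fin n → ℤ) : Fin n → K := fun j => (x j : K)

/-- a linear form -/
def lin (K : Type) [Field K] {n : ℕ} (a : Fin n → ℤ) (x : Fin n → K) : K := ∑ j, (a j : K) * x j

lemma le_hgt {n : ℕ} (x : Fin n → ℤ) (j : Fin n) : |(x j : ℝ)| ≤ hgt x :=
  le_ciSup (f := fun j => |(x j : ℝ)|) (Set.finite_range _).bddAbove j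

lemma hgt_ge_one {n : ℕ} {x : Fin n → ℤ} (h : x ≠ 0) : 1 ≤ hgt x := by
  obtain ⟨j, hj⟩ := Function.ne_iff.1 h
  refine le_trans ?_ (le_hgt x j)
  have : 1 ≤ |x j| := Int.one_le_abs hj
  exact_mod_cast this

lemma nrm_f0 {ι : Type} [Fintype ι] (S : Sys K ι) {n : ℕ} (x : Fin n → ℤ) :
    nrm S.f0 (ck K x) = hgt x := by
  unfold nrm hgt ck
  simp_rw [S.f0i]

lemma nonarch_sum (f : AbsoluteValue K ℝ) (hf : IsNonarchimedean f) {ι : Type} (s : Finset ι)
    (g : ι → K) (b : ℝ) (hb : 0 ≤ b) (hg : ∀ i ∈ s, f (g i) ≤ b) : f (∑ i ∈ s, g i) ≤ b := by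
  classical
  induction s using Finset.induction_on with
  | empty => simpa using hb
  | insert a s ha ih =>
    rw [Finset.sum_insert ha]
    refine (hf _ _).trans (max_le (hg a (Finset.mem_insert_self _ _)) ?_)
    exact ih fun i hi => hg i (Finset.mem_insert_of_mem hi)

lemma nrm_fs {ι : Type} [Fintype ι] (S : Sys K ι) {n : ℕ} {x : Fin n → ℤ} (h : Prim x) (i : ι) :
    nrm (S.fs i) (ck K x) = 1 := by
  apply le_antisymm
  · have hn : 0 < n := by
      obtain ⟨j, -⟩ := Function.ne_iff.1 h.ne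
      exact Fin.pos j
    have : Nonempty (Fin n) := ⟨⟨0, hn⟩⟩
    exact ciSup_le fun j => S.int i _
  · obtain ⟨c, hc⟩ := h.bez
    have h1 : (S.fs i) ((1 : ℤ) : K) ≤ nrm (S.fs i) (ck K x) := by
      rw [← hc]
      push_cast
      refine nonarch_sum _ (S.na i) _ _ _ (nrm_nonneg _ _) fun j _ => ?_
      rw [map_mul]
      calc (S.fs i) (c j : K) * (S.fs i) (x j : K) ≤ 1 * nrm (S.fs i) (ck K x) :=
            mul_le_mul (S.int i _) (le_nrm (S.fs i) (ck K x) j) ((S.fs i).nonneg _) zero_le_one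
        _ = _ := one_mul _
    simpa using h1

lemma lin_cross {n : ℕ} (a b : Fin n → ℤ) (x y : Fin n → K) :
    lin K a x * lin K b y - lin K b x * lin K a y =
      ∑ j, ∑ k, ((a j : K) * (b k : K)) * (x j * y k - x k * y j) := by
  unfold lin
  rw [Finset.sum_mul_sum, Finset.sum_mul_sum, Finset.sum_comm (γ := Fin n) (f := fun i j =>
    (b i : K) * x i * ((a j : K) * y j)), ← Finset.sum_sub_distrib]
  refine Finset.sum_congr rfl fun j _ => ?_
  rw [← Finset.sum_sub_distrib]
  refine Finset.sum_congr rfl fun k _ => ?_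
  ring

lemma cross_le (f : AbsoluteValue K ℝ) {n : ℕ} (a b : Fin n → ℤ) {x : Fin n → K} (hx : x ≠ 0)
    (y : Fin n → K) :
    f (lin K a x * lin K b y - lin K b x * lin K a y) ≤
      (∑ j, ∑ k, f ((a j : K) * (b k : K))) * (del f y x * nrm f x) := by
  rw [lin_cross, Finset.sum_mul]
  refine (f.sum_le _ _).trans (Finset.sum_le_sum fun j _ => ?_)
  rw [Finset.sum_mul]
  refine (f.sum_le _ _).trans (Finset.sum_le_sum fun k _ => ?_)
  rw [map_mul]
  refine mul_le_mul_of_nonneg_left ?_ (f.nonneg _)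
  have h1 := le_del f y x (j, k)
  unfold rho at h1
  rw [aeval_eqn, pow_one, div_le_iff₀ (nrm_pos f hx)] at h1
  exact h1

lemma ck_ne {n : ℕ} [CharZero K] {x : Fin n → ℤ} (h : x ≠ 0) : ck K x ≠ 0 := by
  intro h0
  apply h
  funext j
  have := congrFun h0 j
  simpa [ck] using this

lemma lin_ck {n : ℕ} (a x : Fin n → ℤ) : lin K a (ck K x) = ((∑ j, a j * x j : ℤ) : K) := by
  unfold lin ck
  push_cast
  rfl

theorem proj_one [NumberField K] {ι : Type} [Fintype ι] (S : Sys K ι) {n : ℕ} (a b : Fin n → ℤ)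
    (y0 : Fin n → K) (y : ι → Fin n → K) (hb0 : lin K b y0 ≠ 0) (hb : ∀ i, lin K b (y i) ≠ 0)
    (ε : ℝ) (hε : 0 < ε) :
    ∃ C : ℝ, 0 ≤ C ∧ ∀ x : Fin n → ℤ, Prim x →
      lin K a (ck K x) * lin K b y0 - lin K b (ck K x) * lin K a y0 ≠ 0 →
      (∀ i, lin K a (ck K x) * lin K b (y i) - lin K b (ck K x) * lin K a (y i) ≠ 0) →
      - Real.log (del S.f0 y0 (ck K x)) + ∑ i, - Real.log (del (S.fs i) (y i) (ck K x)) ≤
        (2 + ε) * Real.log (hgt x) + C := by
  classical
  have : Algebra.IsAlgebraic ℤ K :=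
    (IsFractionRing.comap_isAlgebraic_iff (A := ℤ) (K := ℚ) (C := K)).2 inferInstance
  -- the targets
  set Y : Option ι → (Fin n → K) := fun o => o.elim y0 y with hY
  set ζ : Option ι → K := fun o => lin K a (Y o) / lin K b (Y o) with hζ
  obtain ⟨c, hc0, hc⟩ := Algebra.IsAlgebraic.exists_integral_multiples ℤ (Finset.univ.image ζ)
  have hc' : ∀ o, IsIntegral ℤ (c • ζ o) := fun o =>
    hc _ (Finset.mem_image_of_mem _ (Finset.mem_univ o))
  choose g hg hg0 using hc'
  set G : Polynomial ℤ := ∏ o, g o with hG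
  have hGm : G.Monic := Polynomial.monic_prod_of_monic _ _ fun o _ => hg o
  have hG0 : ∀ o, Polynomial.aeval (c • ζ o) G = 0 := by
    intro o
    rw [hG, map_prod]
    exact Finset.prod_eq_zero (Finset.mem_univ o) (hg0 o)
  have hGd : 0 < G.natDegree := by
    by_contra h
    push Not at h
    have h1 := Polynomial.eq_one_of_monic_natDegree_zero hGm (Nat.le_zero.1 h)
    have h2 := hG0 none
    rw [h1, map_one] at h2
    exact one_ne_zero h2
  obtain ⟨CR, hCR0, hCR⟩ := ridout S.f0 S.fs S.na S.int S.prod G hGm hGd (c • ζ none)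
    (fun i => c • ζ (some i)) (hG0 none) (fun i => hG0 (some i)) ε hε
  -- the constants
  set Γ : AbsoluteValue K ℝ → (Fin n → K) → ℝ := fun f z =>
    1 + f ((c : K) / lin K b z) * ∑ j, ∑ k, f ((a j : K) * (b k : K)) with hΓ
  have hΓ1 : ∀ f z, 1 ≤ Γ f z := fun f z => by
    have : 0 ≤ f ((c : K) / lin K b z) * ∑ j, ∑ k, f ((a j : K) * (b k : K)) :=
      mul_nonneg (f.nonneg _) (Finset.sum_nonneg fun _ _ => Finset.sum_nonneg fun _ _ => f.nonneg _)
    simp only [hΓ]
    linarith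
  set W : ℝ := 1 + (|(c : ℝ)| * ∑ j, |(a j : ℝ)| + ∑ j, |(b j : ℝ)|) with hW
  have hW1 : 1 ≤ W := by
    have : 0 ≤ |(c : ℝ)| * ∑ j, |(a j : ℝ)| + ∑ j, |(b j : ℝ)| := by positivity
    linarith
  have hlogW : 0 ≤ Real.log W := Real.log_nonneg hW1
  have hlogΓ : ∀ f z, 0 ≤ Real.log (Γ f z) := fun f z => Real.log_nonneg (hΓ1 f z)
  have hΓs : 0 ≤ ∑ i, Real.log (Γ (S.fs i) (y i)) := Finset.sum_nonneg fun i _ => hlogΓ _ _
  refine ⟨CR + Real.log (Γ S.f0 y0) + ∑ i, Real.log (Γ (S.fs i) (y i)) + (1 + ε) * Real.log W,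
    by have := hlogΓ S.f0 y0; positivity, fun x hx hx0 hxi => ?_⟩
  have hxne := hx.ne
  have hH1 := hgt_ge_one hxne
  set u : ℤ := c * ∑ j, a j * x j with hu
  set v : ℤ := ∑ j, b j * x j with hv
  have huK : (u : K) = c * lin K a (ck K x) := by
    rw [lin_ck, hu]
    push_cast
    rfl
  have hvK : (v : K) = lin K b (ck K x) := by
    rw [lin_ck]
  have hcK : (c : K) ≠ 0 := by exact_mod_cast hc0
  have huv : u ≠ 0 ∨ v ≠ 0 := by
    by_contra hcon
    push Not at hcon
    apply hx0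
    rw [hcon.2, Int.cast_zero] at hvK
    rw [hcon.1, Int.cast_zero] at huK
    have h1 : lin K a (ck K x) = 0 := (mul_eq_zero.1 huK.symm).resolve_left hcK
    rw [h1, ← hvK]
    ring
  set d : ℤ := (Int.gcd u v : ℤ) with hd
  have hdpos : 0 < d := by
    rw [hd]
    exact_mod_cast Int.gcd_pos_iff.2 huv
  obtain ⟨p, hp⟩ : d ∣ u := Int.gcd_dvd_left ..
  obtain ⟨q, hq⟩ : d ∣ v := Int.gcd_dvd_right ..
  have hpq : IsCoprime p q := by
    rw [Int.isCoprime_iff_gcd_eq_one]
    have h1 : Int.gcd u v = d.natAbs * Int.gcd p q := by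
      conv_lhs => rw [hp, hq]
      rw [Int.gcd_mul_left]
    have h2 : d.natAbs = Int.gcd u v := by rw [hd, Int.natAbs_natCast]
    rw [h2] at h1
    have h3 : 0 < Int.gcd u v := Int.gcd_pos_iff.2 huv
    exact (Nat.eq_of_mul_eq_mul_left h3 (by rw [mul_one]; exact h1)).symm
  have hdK : (d : K) ≠ 0 := by exact_mod_cast hdpos.ne'
  -- the main identity
  have hid : ∀ z : Fin n → K, lin K b z ≠ 0 →
      (d : K) * ((p : K) - (c • (lin K a z / lin K b z)) * q) =
        ((c : K) / lin K b z) * (lin K a (ck K x) * lin K b z - lin K b (ck K x) * lin K a z) := by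
    intro z hz
    have h1 : (d : K) * p = c * lin K a (ck K x) := by
      rw [← huK, hp]
      push_cast
      rfl
    have h2 : (d : K) * q = lin K b (ck K x) := by
      rw [← hvK, hq]
      push_cast
      rfl
    rw [zsmul_eq_mul]
    calc (d : K) * ((p : K) - (c * (lin K a z / lin K b z)) * q) =
          (d : K) * p - (c * (lin K a z / lin K b z)) * ((d : K) * q) := by ring
      _ = _ := by
          rw [h1, h2]
          field_simp
  have hne : ∀ z : Fin n → K, lin K b z ≠ 0 →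
      lin K a (ck K x) * lin K b z - lin K b (ck K x) * lin K a z ≠ 0 →
      (p : K) - (c • (lin K a z / lin K b z)) * q ≠ 0 := by
    intro z hz hz2 h0
    have h1 := hid z hz
    rw [h0, mul_zero] at h1
    exact mul_ne_zero (div_ne_zero hcK hz) hz2 h1.symm
  have hest : ∀ (f : AbsoluteValue K ℝ) (z : Fin n → K), lin K b z ≠ 0 →
      lin K a (ck K x) * lin K b z - lin K b (ck K x) * lin K a z ≠ 0 →
      Real.log (f ((p : K) - (c • (lin K a z / lin K b z)) * q)) + Real.log (f (d : K)) ≤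
        Real.log (Γ f z) + Real.log (del f z (ck K x)) + Real.log (nrm f (ck K x)) := by
    intro f z hz hz2
    have h1 := congrArg f (hid z hz)
    rw [map_mul, map_mul] at h1
    have h2 := cross_le f a b (ck_ne (K := K) hxne) z
    have h3 : f (d : K) * f ((p : K) - (c • (lin K a z / lin K b z)) * q) ≤
        Γ f z * (del f z (ck K x) * nrm f (ck K x)) := by
      rw [h1]
      have h4 : 0 ≤ del f z (ck K x) * nrm f (ck K x) :=
        mul_nonneg (del_nonneg _ _ _) (nrm_nonneg _ _)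
      calc f ((c : K) / lin K b z) *
            f (lin K a (ck K x) * lin K b z - lin K b (ck K x) * lin K a z) ≤
          f ((c : K) / lin K b z) * ((∑ j, ∑ k, f ((a j : K) * (b k : K))) *
            (del f z (ck K x) * nrm f (ck K x))) := mul_le_mul_of_nonneg_left h2 (f.nonneg _)
        _ = (f ((c : K) / lin K b z) * ∑ j, ∑ k, f ((a j : K) * (b k : K))) *
            (del f z (ck K x) * nrm f (ck K x)) := by ring
        _ ≤ _ := by
            refine mul_le_mul_of_nonneg_right ?_ h4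
            simp only [hΓ]
            linarith
    have hfd : 0 < f (d : K) := f.pos hdK
    have hfp : 0 < f ((p : K) - (c • (lin K a z / lin K b z)) * q) := f.pos (hne z hz hz2)
    have hpos := (mul_pos hfd hfp).trans_le h3
    have hΓp : 0 < Γ f z := by linarith [hΓ1 f z]
    have hdn : 0 < del f z (ck K x) * nrm f (ck K x) := by
      by_contra hcon
      push Not at hcon
      have := mul_nonpos_of_nonneg_of_nonpos hΓp.le hcon
      linarith
    have hnp : 0 < nrm f (ck K x) := nrm_pos f (ck_ne (K := K) hxne)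
    have hdp : 0 < del f z (ck K x) := by
      by_contra hcon
      push Not at hcon
      have := mul_nonpos_of_nonpos_of_nonneg hcon hnp.le
      linarith
    have h4 := Real.log_le_log (mul_pos hfd hfp) h3
    rw [Real.log_mul hfd.ne' hfp.ne', Real.log_mul hΓp.ne' hdn.ne',
      Real.log_mul hdp.ne' hnp.ne'] at h4
    linarith
  have hR := hCR p q hpq (hne y0 hb0 hx0) (fun i => hne (y i) (hb i) (hxi i))
  have hHH1 := HH_ge_one (coprime_ne hpq)
  have hHHpos : 0 < HH p q := by linarith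
  have hf0pos : 0 < S.f0 ((p : K) - (c • ζ none) * q) := S.f0.pos (hne y0 hb0 hx0)
  rw [Real.log_div hf0pos.ne' hHHpos.ne'] at hR
  have e0 := hest S.f0 y0 hb0 hx0
  have ei := Finset.sum_le_sum fun i (_ : i ∈ Finset.univ) => hest (S.fs i) (y i) (hb i) (hxi i)
  rw [nrm_f0] at e0
  simp_rw [nrm_fs S hx, Real.log_one, add_zero] at ei
  rw [Finset.sum_add_distrib, Finset.sum_add_distrib] at ei
  have hpr : 0 ≤ Real.log (S.f0 (d : K)) + ∑ i, Real.log (S.fs i (d : K)) := by
    rw [← Real.log_prod (fun i _ => ((S.fs i).pos hdK).ne'), ← Real.log_mul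
      (S.f0.pos hdK).ne' (Finset.prod_pos fun i _ => (S.fs i).pos hdK).ne']
    exact Real.log_nonneg (S.prod d hdpos.ne')
  have hHH : Real.log (HH p q) ≤ Real.log W + Real.log (hgt x) := by
    rw [← Real.log_mul (by linarith) (by linarith)]
    apply Real.log_le_log hHHpos
    have hd1 : (1 : ℝ) ≤ |(d : ℝ)| := by
      have : 1 ≤ |d| := Int.one_le_abs hdpos.ne'
      exact_mod_cast this
    have hpu : |(p : ℝ)| ≤ |(u : ℝ)| := by
      rw [hp]
      push_cast
      rw [abs_mul]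
      exact le_mul_of_one_le_left (abs_nonneg _) hd1
    have hqv : |(q : ℝ)| ≤ |(v : ℝ)| := by
      rw [hq]
      push_cast
      rw [abs_mul]
      exact le_mul_of_one_le_left (abs_nonneg _) hd1
    have hlinb : ∀ e : Fin n → ℤ, |((∑ j, e j * x j : ℤ) : ℝ)| ≤ (∑ j, |(e j : ℝ)|) * hgt x := by
      intro e
      push_cast
      rw [Finset.sum_mul]
      refine (Finset.abs_sum_le_sum_abs _ _).trans (Finset.sum_le_sum fun j _ => ?_)
      rw [abs_mul]
      exact mul_le_mul_of_nonneg_left (le_hgt x j) (abs_nonneg _)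
    have hH0 : 0 ≤ hgt x := by linarith
    have hA0 : 0 ≤ ∑ j, |(a j : ℝ)| := Finset.sum_nonneg fun _ _ => abs_nonneg _
    have hB0 : 0 ≤ ∑ j, |(b j : ℝ)| := Finset.sum_nonneg fun _ _ => abs_nonneg _
    have h1 : |(u : ℝ)| ≤ W * hgt x := by
      rw [hu, Int.cast_mul, abs_mul]
      calc |(c : ℝ)| * |((∑ j, a j * x j : ℤ) : ℝ)| ≤ |(c : ℝ)| * ((∑ j, |(a j : ℝ)|) * hgt x) :=
            mul_le_mul_of_nonneg_left (hlinb a) (abs_nonneg _)
        _ = (|(c : ℝ)| * ∑ j, |(a j : ℝ)|) * hgt x := by ring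
        _ ≤ W * hgt x := by
            refine mul_le_mul_of_nonneg_right ?_ hH0
            rw [hW]
            linarith
    have h2 : |(v : ℝ)| ≤ W * hgt x := by
      refine (hlinb b).trans (mul_le_mul_of_nonneg_right ?_ hH0)
      have : 0 ≤ |(c : ℝ)| * ∑ j, |(a j : ℝ)| := mul_nonneg (abs_nonneg _) hA0
      rw [hW]
      linarith
    exact max_le (hpu.trans h1) (hqv.trans h2)
  have hHHn : 0 ≤ Real.log (HH p q) := Real.log_nonneg hHH1
  have hmul : (1 + ε) * Real.log (HH p q) ≤ (1 + ε) * (Real.log W + Real.log (hgt x)) :=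
    mul_le_mul_of_nonneg_left hHH (by linarith)
  have hR' : - (Real.log (S.f0 ((p : K) - (c • ζ none) * q)) - Real.log (HH p q)) -
      ∑ i, Real.log (S.fs i ((p : K) - (c • ζ (some i)) * q)) ≤
      (2 + ε) * Real.log (HH p q) + CR := by
    rw [Finset.sum_neg_distrib] at hR
    linarith
  have e0' : Real.log (S.f0 ((p : K) - (c • ζ none) * q)) + Real.log (S.f0 (d : K)) ≤
      Real.log (Γ S.f0 y0) + Real.log (del S.f0 y0 (ck K x)) + Real.log (hgt x) := e0
  have ei' : ∑ i, Real.log (S.fs i ((p : K) - (c • ζ (some i)) * q)) +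
      ∑ i, Real.log (S.fs i (d : K)) ≤
      ∑ i, Real.log (Γ (S.fs i) (y i)) + ∑ i, Real.log (del (S.fs i) (y i) (ck K x)) := ei
  rw [Finset.sum_neg_distrib]
  linarith

end Pool.Agent.W180.RR
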