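import Pool.Agent.W180.RR.Core

set_option autoImplicit false

/-!
The Ridout theorem for several absolute values of a field `K` and algebraic integer targets.
-/

open Finset

namespace Pool.Agent.W180.RR

/-- the height of a pair of integers -/
noncomputable def HH (p q : ℤ) : ℝ := max |(p : ℝ)| |(q : ℝ)|

lemma HH_ge_one {p q : ℤ} (h : p ≠ 0 ∨ q ≠ 0) : 1 ≤ HH p q := by
  unfold HH
  rcases h with h | h
  · refine le_trans ?_ (le_max_left _ _)
    have : 1 ≤ |p| := Int.one_le_abs h
    exact_mod_cast this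
  · refine le_trans ?_ (le_max_right _ _)
    have : 1 ≤ |q| := Int.one_le_abs h
    exact_mod_cast this

lemma coprime_ne {p q : ℤ} (h : IsCoprime p q) : p ≠ 0 ∨ q ≠ 0 := by
  by_contra hcon
  push Not at hcon
  rw [hcon.1, hcon.2] at h
  exact not_isCoprime_zero_zero h

/-- a nonarchimedean absolute value is at most `1` on algebraic integers -/
lemma nonarch_int {K : Type} [Field K] (f : AbsoluteValue K ℝ) (hf : IsNonarchimedean f)
    (hint : ∀ n : ℤ, f (n : K) ≤ 1) {ξ : K} (h : IsIntegral ℤ ξ) : f ξ ≤ 1 := by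
  by_contra hcon
  push Not at hcon
  obtain ⟨g, hg, hg0⟩ := h
  have hsum : ∀ (ι : Type) (s : Finset ι) (g : ι → K) (b : ℝ), 0 ≤ b → (∀ i ∈ s, f (g i) ≤ b) →
      f (∑ i ∈ s, g i) ≤ b := by
    intro ι s g b hb hg
    classical
    induction s using Finset.induction_on with
    | empty => simpa using hb
    | insert a s ha ih =>
      rw [Finset.sum_insert ha]
      refine (hf _ _).trans (max_le (hg a (Finset.mem_insert_self _ _)) ?_)
      exact ih fun i hi => hg i (Finset.mem_insert_of_mem hi)
  rcases Nat.eq_zero_or_pos g.natDegree with hd | hd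
  · have h1 : g = 1 := Polynomial.eq_one_of_monic_natDegree_zero hg hd
    rw [h1] at hg0
    simp at hg0
  obtain ⟨e, he⟩ := Nat.exists_eq_succ_of_ne_zero hd.ne'
  have h1 : ξ ^ (e + 1) = - ∑ i ∈ Finset.range (e + 1), (g.coeff i : K) * ξ ^ i := by
    have h2 := hg0
    rw [← Polynomial.aeval_def, Polynomial.aeval_eq_sum_range, he, Nat.succ_eq_add_one,
      Finset.sum_range_succ] at h2
    have h3 : g.coeff (e + 1) = 1 := by
      have := hg.coeff_natDegree
      rwa [he] at this
    rw [h3, one_smul] at h2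
    rw [eq_neg_iff_add_eq_zero, add_comm, ← h2]
    congr 1
    refine Finset.sum_congr rfl (fun i _ => ?_)
    rw [zsmul_eq_mul]
  have h2 : f (ξ ^ (e + 1)) ≤ f ξ ^ e := by
    rw [h1, AbsoluteValue.map_neg]
    refine hsum _ _ _ _ (pow_nonneg (f.nonneg _) _) fun i hi => ?_
    rw [map_mul, map_pow]
    have hi' : i ≤ e := Nat.lt_succ_iff.1 (Finset.mem_range.1 hi)
    calc f (g.coeff i : K) * f ξ ^ i ≤ 1 * f ξ ^ e :=
          mul_le_mul (hint _) (pow_le_pow_right₀ hcon.le hi') (pow_nonneg (f.nonneg _) _)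
            zero_le_one
      _ = f ξ ^ e := one_mul _
  rw [map_pow, pow_succ] at h2
  have h3 : 0 < f ξ ^ e := pow_pos (by linarith) _
  nlinarith

theorem ridout {K : Type} [Field K] {ι : Type} [Fintype ι] (f0 : AbsoluteValue K ℝ)
    (fs : ι → AbsoluteValue K ℝ) (hna : ∀ i, IsNonarchimedean (fs i))
    (hint : ∀ i (n : ℤ), fs i (n : K) ≤ 1)
    (hprod : ∀ n : ℤ, n ≠ 0 → 1 ≤ f0 (n : K) * ∏ i, fs i (n : K))
    (g : Polynomial ℤ) (hmon : g.Monic) (hdeg : 0 < g.natDegree)
    (ξ0 : K) (ξ : ι → K) (hξ0 : Polynomial.aeval ξ0 g = 0)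
    (hξ : ∀ i, Polynomial.aeval (ξ i) g = 0) (ε : ℝ) (hε : 0 < ε) :
    ∃ C : ℝ, 0 ≤ C ∧ ∀ p q : ℤ, IsCoprime p q → (p : K) - ξ0 * q ≠ 0 →
      (∀ i, (p : K) - ξ i * q ≠ 0) →
      - Real.log (f0 ((p : K) - ξ0 * q) / HH p q) + ∑ i, - Real.log (fs i ((p : K) - ξ i * q)) ≤
        (2 + ε) * Real.log (HH p q) + C := by
  classical
  set B : ℝ := max 1 (f0 ξ0) with hBdef
  have hB : 1 ≤ B := le_max_left _ _
  have hB0 : f0 ξ0 ≤ B := le_max_right _ _
  have hB1 : ∀ i, fs i (ξ i) ≤ 1 := fun i => nonarch_int (fs i) (hna i) (hint i) ⟨g, hmon, by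
    rw [← Polynomial.aeval_def]
    exact hξ i⟩
  set s : ℕ := Fintype.card ι with hs
  set δ : ℝ := ε / (2 * (s + 1)) with hδ
  have hδ0 : 0 < δ := by positivity
  set M : ℕ := ⌈(2 + ε / 2) / δ⌉₊ with hM
  have hMδ : 2 + ε / 2 ≤ δ * M := by
    have := Nat.le_ceil ((2 + ε / 2) / δ)
    rw [div_le_iff₀ hδ0] at this
    linarith
  -- the bounds for the weights in the grid
  have hcore : ∀ u : Option ι → Fin (M + 1), ∃ N0 : ℝ,
      2 + ε / 2 ≤ δ * (u none : ℕ) + ∑ i, δ * (u (some i) : ℕ) →
      ∀ p q : ℤ, IsCoprime p q → q ≠ 0 →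
      f0 ((p : K) - ξ0 * q) ≤ (1 + B) * HH p q *
        Real.exp (-(δ * (u none : ℕ) * Real.log (HH p q))) →
      (∀ i, fs i ((p : K) - ξ i * q) ≤ Real.exp (-(δ * (u (some i) : ℕ) * Real.log (HH p q)))) →
      Real.log (HH p q) ≤ N0 := by
    intro u
    by_cases h : 2 + ε / 2 ≤ δ * (u none : ℕ) + ∑ i, δ * (u (some i) : ℕ)
    · obtain ⟨N0, hN0⟩ := core f0 fs hna hint hprod g hmon hdeg ξ0 ξ hξ0 hξ B hB hB0 hB1
        (δ * (u none : ℕ)) (fun i => δ * (u (some i) : ℕ)) (by positivity)
        (fun i => by positivity) (ε / 2) (by positivity) h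
      exact ⟨N0, fun _ => hN0⟩
    · exact ⟨0, fun h' => absurd h' h⟩
  choose N0 hN0 using hcore
  set N1 : ℝ := ∑ u, |N0 u| with hN1
  have hN1le : ∀ u, N0 u ≤ N1 := fun u =>
    (le_abs_self _).trans (Finset.single_le_sum (f := fun u => |N0 u|)
      (fun _ _ => abs_nonneg _) (Finset.mem_univ u))
  -- the finite set of small pairs
  set V : ℤ → ℤ → ℝ := fun p q => - Real.log (f0 ((p : K) - ξ0 * q) / HH p q) +
    ∑ i, - Real.log (fs i ((p : K) - ξ i * q)) with hV
  set E : ℤ := ⌈Real.exp N1⌉ + 1 with hE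
  set box : Finset (ℤ × ℤ) := Finset.Icc (-E) E ×ˢ Finset.Icc (-E) E with hbox
  set C1 : ℝ := ∑ t ∈ box, |V t.1 t.2| with hC1
  have hC10 : 0 ≤ C1 := Finset.sum_nonneg fun _ _ => abs_nonneg _
  have hlogB : 0 ≤ Real.log (1 + B) := Real.log_nonneg (by linarith)
  refine ⟨C1 + Real.log (1 + B), by linarith, fun p q hpq h0 hi => ?_⟩
  have hne := coprime_ne hpq
  have hH1 := HH_ge_one hne
  have hHpos : 0 < HH p q := by linarith
  set N : ℝ := Real.log (HH p q) with hN
  have hNn : 0 ≤ N := Real.log_nonneg hH1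
  have hHexp : HH p q = Real.exp N := by rw [hN, Real.exp_log hHpos]
  by_cases hsmall : N ≤ N1 ∨ q = 0
  · -- a small pair
    have hHE : HH p q ≤ E := by
      rcases hsmall with h | h
      · rw [hHexp]
        have h1 := Real.exp_le_exp.2 h
        have h2 := Int.le_ceil (Real.exp N1)
        rw [hE]
        push_cast
        linarith
      · have hp : HH p q = 1 := by
          subst h
          rw [isCoprime_zero_right] at hpq
          have : |(p : ℝ)| = 1 := by
            have h3 : |p| = 1 := Int.isUnit_iff_abs_eq.1 hpq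
            exact_mod_cast h3
          unfold HH
          rw [this]
          simp
        rw [hp, hE]
        have h2 := Int.le_ceil (Real.exp N1)
        have h3 := Real.exp_pos N1
        push_cast
        linarith
    have hmem : (p, q) ∈ box := by
      have hp : |(p : ℝ)| ≤ E := (le_max_left _ _).trans hHE
      have hq : |(q : ℝ)| ≤ E := (le_max_right _ _).trans hHE
      rw [abs_le] at hp hq
      rw [hbox, Finset.mem_product, Finset.mem_Icc, Finset.mem_Icc]
      refine ⟨⟨?_, ?_⟩, ?_, ?_⟩
      · exact_mod_cast hp.1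
      · exact_mod_cast hp.2
      · exact_mod_cast hq.1
      · exact_mod_cast hq.2
    have h4 : V p q ≤ C1 := (le_abs_self _).trans
      (Finset.single_le_sum (f := fun t : ℤ × ℤ => |V t.1 t.2|) (fun _ _ => abs_nonneg _) hmem)
    have h5 : 0 ≤ (2 + ε) * N := by positivity
    show V p q ≤ (2 + ε) * N + (C1 + Real.log (1 + B))
    linarith
  · push Not at hsmall
    obtain ⟨hNbig, hq0⟩ := hsmall
    have hNpos : 0 < N := lt_of_le_of_lt (Finset.sum_nonneg fun _ _ => abs_nonneg _) hNbig
    by_contra hcon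
    push Not at hcon
    -- the exponents
    set a : Option ι → ℝ := fun o => o.elim
      (- Real.log (f0 ((p : K) - ξ0 * q) / ((1 + B) * HH p q)))
      (fun i => - Real.log (fs i ((p : K) - ξ i * q))) with ha
    have hf0pos : 0 < f0 ((p : K) - ξ0 * q) := f0.pos h0
    have hfipos : ∀ i, 0 < fs i ((p : K) - ξ i * q) := fun i => (fs i).pos (hi i)
    have hanone : a none = - Real.log (f0 ((p : K) - ξ0 * q) / HH p q) + Real.log (1 + B) := by
      simp only [ha, Option.elim_none]
      rw [Real.log_div hf0pos.ne' (by positivity), Real.log_mul (by positivity) hHpos.ne',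
        Real.log_div hf0pos.ne' hHpos.ne']
      ring
    have hanonneg : 0 ≤ a none := by
      simp only [ha, Option.elim_none]
      rw [neg_nonneg]
      apply Real.log_nonpos (by positivity)
      rw [div_le_one (by positivity)]
      calc f0 ((p : K) - ξ0 * q) ≤ f0 (p : K) + f0 (ξ0 * q) := by
            rw [sub_eq_add_neg]
            refine (f0.add_le _ _).trans ?_
            rw [AbsoluteValue.map_neg]
        _ ≤ HH p q + B * HH p q := by
            refine add_le_add ((abs_int_le f0 p).trans (le_max_left _ _)) ?_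
            rw [map_mul]
            exact mul_le_mul hB0 ((abs_int_le f0 q).trans (le_max_right _ _)) (f0.nonneg _)
              (by linarith)
        _ = (1 + B) * HH p q := by ring
    have hsomenonneg : ∀ i, 0 ≤ a (some i) := by
      intro i
      simp only [ha, Option.elim_some]
      rw [neg_nonneg]
      apply Real.log_nonpos (hfipos i).le
      rw [sub_eq_add_neg]
      refine (hna i _ _).trans (max_le (hint i p) ?_)
      rw [AbsoluteValue.map_neg, map_mul]
      exact mul_le_one₀ (hB1 i) ((fs i).nonneg _) (hint i q)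
    have hann : ∀ o, 0 ≤ a o := by
      rintro (_ | i)
      · exact hanonneg
      · exact hsomenonneg i
    have hasum : (2 + ε) * N ≤ a none + ∑ i, a (some i) := by
      rw [hanone]
      simp only [ha, Option.elim_some]
      linarith
    set u : Option ι → Fin (M + 1) := fun o =>
      ⟨min ⌊a o / (δ * N)⌋₊ M, Nat.lt_succ_of_le (min_le_right _ _)⟩ with hu
    have hδN : 0 < δ * N := mul_pos hδ0 hNpos
    have hule : ∀ o, δ * ((u o : Fin (M + 1)) : ℕ) * N ≤ a o := by
      intro o
      have h1 : (((u o : Fin (M + 1)) : ℕ) : ℝ) ≤ a o / (δ * N) := by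
        refine le_trans ?_ (Nat.floor_le (div_nonneg (hann o) hδN.le))
        exact_mod_cast min_le_left _ _
      rw [le_div_iff₀ hδN] at h1
      linarith
    have hsum : 2 + ε / 2 ≤ δ * ((u none : Fin (M + 1)) : ℕ) +
        ∑ i, δ * ((u (some i) : Fin (M + 1)) : ℕ) := by
      have hs1 : δ * ((u none : Fin (M + 1)) : ℕ) + ∑ i, δ * ((u (some i) : Fin (M + 1)) : ℕ) =
          ∑ o, δ * ((u o : Fin (M + 1)) : ℕ) := by
        rw [Fintype.sum_option]
      rw [hs1]
      by_cases hcap : ∃ o, M ≤ ⌊a o / (δ * N)⌋₊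
      · obtain ⟨o, ho⟩ := hcap
        have h1 : ((u o : Fin (M + 1)) : ℕ) = M := by
          simp only [hu]
          exact min_eq_right ho
        calc 2 + ε / 2 ≤ δ * M := hMδ
          _ = δ * ((u o : Fin (M + 1)) : ℕ) := by rw [h1]
          _ ≤ ∑ o, δ * ((u o : Fin (M + 1)) : ℕ) :=
              Finset.single_le_sum (f := fun o => δ * ((u o : Fin (M + 1)) : ℕ))
                (fun _ _ => by positivity) (Finset.mem_univ o)
      · push Not at hcap
        have h1 : ∀ o, a o / N - δ ≤ δ * ((u o : Fin (M + 1)) : ℕ) := by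
          intro o
          have h2 : ((u o : Fin (M + 1)) : ℕ) = ⌊a o / (δ * N)⌋₊ := by
            simp only [hu]
            exact min_eq_left (hcap o).le
          rw [h2]
          have h3 := Nat.lt_floor_add_one (a o / (δ * N))
          have h4 : a o / N = δ * (a o / (δ * N)) := by field_simp
          rw [h4]
          nlinarith
        have h2 := Finset.sum_le_sum fun o (_ : o ∈ Finset.univ) => h1 o
        rw [Finset.sum_sub_distrib, Finset.sum_const, Finset.card_univ, Fintype.card_option,
          nsmul_eq_mul, ← Finset.sum_div, Fintype.sum_option] at h2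
        refine le_trans ?_ h2
        have h3 : 2 + ε ≤ (a none + ∑ i, a (some i)) / N := by
          rw [le_div_iff₀ hNpos]
          exact hasum
        have h4 : ((Fintype.card ι + 1 : ℕ) : ℝ) * δ = ε / 2 := by
          rw [hδ, hs]
          push_cast
          field_simp
        rw [h4]
        linarith
    have h1 := hN0 u hsum p q hpq hq0 (by
      have h2 := hule none
      have h3 : f0 ((p : K) - ξ0 * q) = (1 + B) * HH p q * Real.exp (-(a none)) := by
        simp only [ha, Option.elim_none]
        rw [neg_neg, Real.exp_log (by positivity)]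
        field_simp
      rw [h3]
      refine mul_le_mul_of_nonneg_left (Real.exp_le_exp.2 ?_) (by positivity)
      linarith) (by
      intro i
      have h2 := hule (some i)
      have h3 : fs i ((p : K) - ξ i * q) = Real.exp (-(a (some i))) := by
        simp only [ha, Option.elim_some]
        rw [neg_neg, Real.exp_log (hfipos i)]
      rw [h3]
      apply Real.exp_le_exp.2
      linarith)
    have h2 := hN1le u
    linarith

end Pool.Agent.W180.RR
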