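import Pool.Agent.W180.RR.AuxB

set_option autoImplicit false

/-!
Taylor expansion of the auxiliary polynomial and its estimate for an absolute value.
-/

open Finset

namespace Pool.Agent.W180.RR

/-- the value (a multiple by powers of the denominators) of a derivative -/
def NN {m : ℕ} (r k : Fin m → ℕ) (c : (Fin m → ℕ) → ℤ) (p q : Fin m → ℤ) : ℤ :=
  ∑ a ∈ Box r, c a * ∏ h, (((a h).choose (k h) : ℤ) * p h ^ (a h - k h) * q h ^ (r h - a h))

/-- the value of a derivative at `(ξ, …, ξ)` -/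
def GG {K : Type} [Field K] {m : ℕ} (r : Fin m → ℕ) (c : (Fin m → ℕ) → ℤ) (ξ : K)
    (J : Fin m → ℕ) : K :=
  ∑ a ∈ Box r, (c a : K) * ∏ h, (((a h).choose (J h) : K) * ξ ^ (a h - J h))

lemma one_var {K : Type} [Field K] (r a k : ℕ) (har : a ≤ r) (ξ p q : K) :
    ((a.choose k : K) * p ^ (a - k) * q ^ (r - a)) =
      ∑ j ∈ Finset.range (r + 1), ((a.choose j : K) * ξ ^ (a - j)) *
        ((j.choose k : K) * (p - ξ * q) ^ (j - k) * q ^ (r - j)) := by
  by_cases hka : k ≤ a
  · have h1 : ∑ j ∈ Finset.range (r + 1), ((a.choose j : K) * ξ ^ (a - j)) *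
        ((j.choose k : K) * (p - ξ * q) ^ (j - k) * q ^ (r - j)) =
        ∑ j ∈ Finset.Ico k (a + 1), ((a.choose j : K) * ξ ^ (a - j)) *
        ((j.choose k : K) * (p - ξ * q) ^ (j - k) * q ^ (r - j)) := by
      symm
      apply Finset.sum_subset
      · intro j hj
        rw [Finset.mem_Ico] at hj
        rw [Finset.mem_range]
        omega
      · intro j _ hj
        rw [Finset.mem_Ico] at hj
        rcases Nat.lt_or_ge j k with h | h
        · rw [Nat.choose_eq_zero_of_lt h]
          simp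
        · rw [Nat.choose_eq_zero_of_lt (show a < j by omega)]
          simp
    rw [h1, Finset.sum_Ico_eq_sum_range, show a + 1 - k = (a - k) + 1 by omega]
    have h2 : p ^ (a - k) = ((p - ξ * q) + ξ * q) ^ (a - k) := by ring
    rw [h2, add_pow, Finset.mul_sum, Finset.sum_mul]
    refine Finset.sum_congr rfl fun i hi => ?_
    rw [Finset.mem_range] at hi
    have h3 : (a.choose (k + i) : K) * ((k + i).choose k : K) =
        (a.choose k : K) * ((a - k).choose i : K) := by
      have := Nat.choose_mul (n := a) (k := k + i) (s := k) (Nat.le_add_right k i)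
      rw [Nat.add_sub_cancel_left] at this
      have h := congrArg (Nat.cast : ℕ → K) this
      push_cast at h
      exact h
    have h4 : (ξ * q) ^ (a - k - i) * q ^ (r - a) = ξ ^ (a - (k + i)) * q ^ (r - (k + i)) := by
      rw [mul_pow, mul_assoc, ← pow_add]
      congr 2 <;> omega
    rw [Nat.add_sub_cancel_left]
    calc (a.choose k : K) * ((p - ξ * q) ^ i * (ξ * q) ^ (a - k - i) * ((a - k).choose i : K)) *
          q ^ (r - a) = ((a.choose k : K) * ((a - k).choose i : K)) * (p - ξ * q) ^ i *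
          ((ξ * q) ^ (a - k - i) * q ^ (r - a)) := by ring
      _ = _ := by
          rw [h4, ← h3]
          ring
  · push Not at hka
    rw [Nat.choose_eq_zero_of_lt hka]
    rw [Finset.sum_eq_zero]
    · simp
    · intro j _
      rcases Nat.lt_or_ge a j with h | h
      · rw [Nat.choose_eq_zero_of_lt h]
        simp
      · rw [Nat.choose_eq_zero_of_lt (show j < k by omega)]
        simp

theorem taylor {K : Type} [Field K] {m : ℕ} (r k : Fin m → ℕ) (c : (Fin m → ℕ) → ℤ)
    (p q : Fin m → ℤ) (ξ : K) :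
    ((NN r k c p q : ℤ) : K) = ∑ J ∈ Box r, (∏ h, (((J h).choose (k h) : K) *
      ((p h : K) - ξ * (q h : K)) ^ (J h - k h) * (q h : K) ^ (r h - J h))) * GG r c ξ J := by
  classical
  unfold NN GG
  push_cast
  simp_rw [Finset.mul_sum]
  rw [Finset.sum_comm]
  refine Finset.sum_congr rfl fun a ha => ?_
  rw [mem_Box] at ha
  have h1 : ∏ h, (((a h).choose (k h) : K) * (p h : K) ^ (a h - k h) * (q h : K) ^ (r h - a h)) =
      ∏ h, ∑ j ∈ Finset.range (r h + 1), ((((a h).choose j : K) * ξ ^ (a h - j)) *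
        ((j.choose (k h) : K) * ((p h : K) - ξ * (q h : K)) ^ (j - k h) *
          (q h : K) ^ (r h - j))) :=
    Finset.prod_congr rfl fun h _ => one_var (r h) (a h) (k h) (ha h) ξ (p h : K) (q h : K)
  rw [h1, Finset.prod_univ_sum, Finset.mul_sum]
  refine Finset.sum_congr rfl fun J _ => ?_
  rw [Finset.prod_mul_distrib]
  ring

/-- relation with the value at `p / q` -/
theorem NN_ne {m : ℕ} (r k : Fin m → ℕ) (c : (Fin m → ℕ) → ℤ) (p q : Fin m → ℤ)
    (hq : ∀ h, q h ≠ 0)
    (hne : ∑ a ∈ Fintype.piFinset (fun h => Finset.range (r h + 1)),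
      (c a : ℝ) * ∏ h, (((a h).choose (k h) : ℝ) * ((p h : ℝ) / (q h : ℝ)) ^ (a h - k h)) ≠ 0) :
    NN r k c p q ≠ 0 := by
  intro h0
  apply hne
  have h1 : ((NN r k c p q : ℤ) : ℝ) = (∏ h, (q h : ℝ) ^ (r h - k h)) *
      ∑ a ∈ Fintype.piFinset (fun h => Finset.range (r h + 1)),
      (c a : ℝ) * ∏ h, (((a h).choose (k h) : ℝ) * ((p h : ℝ) / (q h : ℝ)) ^ (a h - k h)) := by
    unfold NN Box
    push_cast
    rw [Finset.mul_sum]
    refine Finset.sum_congr rfl fun a ha => ?_
    have ha' : ∀ h, a h ≤ r h := mem_Box.1 ha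
    rw [mul_left_comm, ← Finset.prod_mul_distrib]
    congr 1
    refine Finset.prod_congr rfl fun h _ => ?_
    rcases Nat.lt_or_ge (a h) (k h) with hlt | hge
    · rw [Nat.choose_eq_zero_of_lt hlt]
      simp
    · have hqr : (q h : ℝ) ≠ 0 := by exact_mod_cast hq h
      have e1 : (q h : ℝ) ^ (r h - k h) = (q h : ℝ) ^ (a h - k h) * (q h : ℝ) ^ (r h - a h) := by
        rw [← pow_add]
        congr 1
        have := ha' h
        omega
      rw [e1, div_pow]
      field_simp
  rw [h0, Int.cast_zero] at h1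
  rcases mul_eq_zero.1 h1.symm with h | h
  · exfalso
    rw [Finset.prod_eq_zero_iff] at h
    obtain ⟨i, -, hi⟩ := h
    have hqr : (q i : ℝ) ≠ 0 := by exact_mod_cast hq i
    exact pow_ne_zero _ hqr hi
  · exact h

section abs

variable {K : Type} [Field K] (f : AbsoluteValue K ℝ)

lemma abs_nat_le (n : ℕ) : f (n : K) ≤ n := by
  induction n with
  | zero => simp
  | succ n ih =>
    push_cast
    refine (f.add_le _ _).trans ?_
    rw [map_one]
    linarith

lemma abs_int_le (n : ℤ) : f (n : K) ≤ |(n : ℝ)| := by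
  obtain ⟨m, rfl | rfl⟩ := n.eq_nat_or_neg
  · simpa using abs_nat_le f m
  · simpa [AbsoluteValue.map_neg] using abs_nat_le f m

lemma GG_le {m : ℕ} (r : Fin m → ℕ) (c : (Fin m → ℕ) → ℤ) (ξ : K) (B C : ℝ) (hB : 1 ≤ B)
    (hξ : f ξ ≤ B) (hC : 1 ≤ C) (hc : ∀ a ∈ Box r, |(c a : ℝ)| ≤ C ^ (∑ h, r h)) (J : Fin m → ℕ) :
    f (GG r c ξ J) ≤ (2 * C * 2 * B) ^ (∑ h, r h) := by
  unfold GG
  refine (f.sum_le _ _).trans ?_
  have h1 : ∀ a ∈ Box r, f ((c a : K) * ∏ h, (((a h).choose (J h) : K) * ξ ^ (a h - J h))) ≤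
      C ^ (∑ h, r h) * (2 * B) ^ (∑ h, r h) := by
    intro a ha
    rw [map_mul, map_prod]
    refine mul_le_mul ((abs_int_le f _).trans (hc a ha)) ?_
      (Finset.prod_nonneg fun _ _ => f.nonneg _) (by positivity)
    rw [← Finset.prod_pow_eq_pow_sum]
    refine Finset.prod_le_prod (fun _ _ => f.nonneg _) fun h _ => ?_
    rw [map_mul, map_pow]
    have ha' := mem_Box.1 ha h
    calc f ((a h).choose (J h) : K) * f ξ ^ (a h - J h) ≤ 2 ^ (r h) * B ^ (r h) := by
          refine mul_le_mul ?_ ?_ (pow_nonneg (f.nonneg _) _) (by positivity)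
          · refine (abs_nat_le f _).trans ?_
            have e1 : (a h).choose (J h) ≤ 2 ^ (r h) :=
              (Nat.choose_le_two_pow _ _).trans (Nat.pow_le_pow_right (by norm_num) ha')
            exact_mod_cast e1
          · exact (pow_le_pow_left₀ (f.nonneg _) hξ _).trans
              (pow_le_pow_right₀ hB ((Nat.sub_le _ _).trans ha'))
      _ = (2 * B) ^ r h := by rw [mul_pow]
  refine (Finset.sum_le_sum h1).trans ?_
  rw [Finset.sum_const, nsmul_eq_mul]
  have h2 : ((Box r).card : ℝ) ≤ 2 ^ (∑ h, r h) := by exact_mod_cast Box_card_le r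
  calc ((Box r).card : ℝ) * (C ^ (∑ h, r h) * (2 * B) ^ (∑ h, r h)) ≤
        2 ^ (∑ h, r h) * (C ^ (∑ h, r h) * (2 * B) ^ (∑ h, r h)) :=
        mul_le_mul_of_nonneg_right h2 (by positivity)
    _ = (2 * C * 2 * B) ^ (∑ h, r h) := by
        rw [← mul_pow, ← mul_pow]
        congr 1
        ring

/-- the estimate for any absolute value -/
theorem arch_le {m : ℕ} (r k : Fin m → ℕ) (c : (Fin m → ℕ) → ℤ) (p q : Fin m → ℤ) (ξ : K)
    (B C : ℝ) (hB : 1 ≤ B) (hξ : f ξ ≤ B) (hC : 1 ≤ C)
    (hc : ∀ a ∈ Box r, |(c a : ℝ)| ≤ C ^ (∑ h, r h)) (H δ : Fin m → ℝ) (hH : ∀ h, 1 ≤ H h)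
    (hp : ∀ h, |(q h : ℝ)| ≤ H h) (hδ : ∀ h, 0 ≤ δ h)
    (hu : ∀ h, f ((p h : K) - ξ * (q h : K)) ≤ (1 + B) * H h * δ h) (E : ℝ) (hE0 : 0 ≤ E)
    (hE : ∀ J ∈ Box r, GG r c ξ J ≠ 0 → (∀ h, k h ≤ J h) → ∏ h, δ h ^ (J h - k h) ≤ E) :
    f ((NN r k c p q : ℤ) : K) ≤
      (16 * (1 + B) * C * B) ^ (∑ h, r h) * (∏ h, H h ^ r h) * E := by
  classical
  rw [taylor r k c p q ξ]
  refine (f.sum_le _ _).trans ?_
  have hHp : 0 < ∏ h, H h ^ r h :=
    Finset.prod_pos fun h _ => pow_pos (by linarith [hH h]) _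
  have h1 : ∀ J ∈ Box r, f ((∏ h, (((J h).choose (k h) : K) *
      ((p h : K) - ξ * (q h : K)) ^ (J h - k h) * (q h : K) ^ (r h - J h))) * GG r c ξ J) ≤
      ((2 * (1 + B)) ^ (∑ h, r h) * (∏ h, H h ^ r h) * E) * (2 * C * 2 * B) ^ (∑ h, r h) := by
    intro J hJ
    have hJ' := mem_Box.1 hJ
    by_cases hG : GG r c ξ J = 0
    · rw [hG, mul_zero, map_zero]
      positivity
    by_cases hk : ∀ h, k h ≤ J h
    · rw [map_mul]
      refine mul_le_mul ?_ (GG_le f r c ξ B C hB hξ hC hc J) (f.nonneg _) (by positivity)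
      have e1 := hE J hJ hG hk
      have e2 : f (∏ h, (((J h).choose (k h) : K) *
          ((p h : K) - ξ * (q h : K)) ^ (J h - k h) * (q h : K) ^ (r h - J h))) ≤
          ∏ h, ((2 * (1 + B)) ^ r h * H h ^ r h * δ h ^ (J h - k h)) := by
        rw [map_prod]
        refine Finset.prod_le_prod (fun _ _ => f.nonneg _) fun h _ => ?_
        rw [map_mul, map_mul, map_pow, map_pow]
        have a1 : f ((J h).choose (k h) : K) ≤ 2 ^ r h := by
          refine (abs_nat_le f _).trans ?_
          have e1 : (J h).choose (k h) ≤ 2 ^ (r h) :=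
            (Nat.choose_le_two_pow _ _).trans (Nat.pow_le_pow_right (by norm_num) (hJ' h))
          exact_mod_cast e1
        have a2 : f ((p h : K) - ξ * (q h : K)) ^ (J h - k h) ≤
            (1 + B) ^ r h * H h ^ (J h - k h) * δ h ^ (J h - k h) := by
          refine (pow_le_pow_left₀ (f.nonneg _) (hu h) _).trans ?_
          rw [mul_pow, mul_pow]
          refine mul_le_mul_of_nonneg_right ?_ (pow_nonneg (hδ h) _)
          refine mul_le_mul_of_nonneg_right ?_ (pow_nonneg (by linarith [hH h]) _)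
          exact pow_le_pow_right₀ (by linarith) ((Nat.sub_le _ _).trans (hJ' h))
        have a3 : f (q h : K) ^ (r h - J h) ≤ H h ^ (r h - J h) :=
          pow_le_pow_left₀ (f.nonneg _) ((abs_int_le f _).trans (hp h)) _
        have hH0 : 0 ≤ H h := by linarith [hH h]
        calc f ((J h).choose (k h) : K) * f ((p h : K) - ξ * (q h : K)) ^ (J h - k h) *
              f (q h : K) ^ (r h - J h) ≤ 2 ^ r h * ((1 + B) ^ r h * H h ^ (J h - k h) *
                δ h ^ (J h - k h)) * H h ^ (r h - J h) := by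
              refine mul_le_mul (mul_le_mul a1 a2 (pow_nonneg (f.nonneg _) _) (by positivity)) a3
                (pow_nonneg (f.nonneg _) _) ?_
              have := hδ h
              positivity
          _ = (2 * (1 + B)) ^ r h * (H h ^ (J h - k h) * H h ^ (r h - J h)) *
                δ h ^ (J h - k h) := by
              rw [mul_pow]
              ring
          _ ≤ (2 * (1 + B)) ^ r h * H h ^ r h * δ h ^ (J h - k h) := by
              refine mul_le_mul_of_nonneg_right ?_ (pow_nonneg (hδ h) _)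
              refine mul_le_mul_of_nonneg_left ?_ (by positivity)
              rw [← pow_add]
              exact pow_le_pow_right₀ (hH h) (by
                have := hJ' h
                omega)
      refine e2.trans ?_
      rw [Finset.prod_mul_distrib, Finset.prod_mul_distrib, Finset.prod_pow_eq_pow_sum]
      exact mul_le_mul_of_nonneg_left e1 (by positivity)
    · push Not at hk
      obtain ⟨h, hh⟩ := hk
      have : ∏ h, (((J h).choose (k h) : K) *
          ((p h : K) - ξ * (q h : K)) ^ (J h - k h) * (q h : K) ^ (r h - J h)) = 0 :=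
        Finset.prod_eq_zero (Finset.mem_univ h) (by
          rw [Nat.choose_eq_zero_of_lt hh]
          simp)
      rw [this, zero_mul, map_zero]
      positivity
  refine (Finset.sum_le_sum h1).trans ?_
  rw [Finset.sum_const, nsmul_eq_mul]
  have h2 : ((Box r).card : ℝ) ≤ 2 ^ (∑ h, r h) := by exact_mod_cast Box_card_le r
  calc ((Box r).card : ℝ) * (((2 * (1 + B)) ^ (∑ h, r h) * (∏ h, H h ^ r h) * E) *
        (2 * C * 2 * B) ^ (∑ h, r h)) ≤ 2 ^ (∑ h, r h) * (((2 * (1 + B)) ^ (∑ h, r h) *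
        (∏ h, H h ^ r h) * E) * (2 * C * 2 * B) ^ (∑ h, r h)) :=
        mul_le_mul_of_nonneg_right h2 (by positivity)
    _ = (2 ^ (∑ h, r h) * (2 * (1 + B)) ^ (∑ h, r h) * (2 * C * 2 * B) ^ (∑ h, r h)) *
        (∏ h, H h ^ r h) * E := by ring
    _ = _ := by
        rw [← mul_pow, ← mul_pow]
        congr 3
        ring

/-- the estimate for a nonarchimedean absolute value -/
theorem nonarch_le (hf : IsNonarchimedean f) (hint : ∀ n : ℤ, f (n : K) ≤ 1) {m : ℕ}
    (r k : Fin m → ℕ) (c : (Fin m → ℕ) → ℤ) (p q : Fin m → ℤ) (ξ : K)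
    (hξ : f ξ ≤ 1) (δ : Fin m → ℝ)
    (hu : ∀ h, f ((p h : K) - ξ * (q h : K)) ≤ δ h) (E : ℝ) (hE0 : 0 ≤ E)
    (hE : ∀ J ∈ Box r, GG r c ξ J ≠ 0 → (∀ h, k h ≤ J h) → ∏ h, δ h ^ (J h - k h) ≤ E) :
    f ((NN r k c p q : ℤ) : K) ≤ E := by
  classical
  have hnat : ∀ n : ℕ, f (n : K) ≤ 1 := fun n => by
    have := hint n
    simpa using this
  have hsum : ∀ (ι : Type) (s : Finset ι) (g : ι → K) (b : ℝ), 0 ≤ b → (∀ i ∈ s, f (g i) ≤ b) →
      f (∑ i ∈ s, g i) ≤ b := by
    intro ι s g b hb hg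
    induction s using Finset.induction_on with
    | empty => simpa using hb
    | insert a s ha ih =>
      rw [Finset.sum_insert ha]
      refine (hf _ _).trans (max_le (hg a (Finset.mem_insert_self _ _)) ?_)
      exact ih fun i hi => hg i (Finset.mem_insert_of_mem hi)
  rw [taylor r k c p q ξ]
  refine hsum _ _ _ _ hE0 fun J hJ => ?_
  by_cases hG : GG r c ξ J = 0
  · rw [hG, mul_zero, map_zero]
    exact hE0
  by_cases hk : ∀ h, k h ≤ J h
  · rw [map_mul]
    have h1 : f (GG r c ξ J) ≤ 1 := by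
      unfold GG
      refine hsum _ _ _ _ zero_le_one fun a _ => ?_
      rw [map_mul, map_prod]
      refine mul_le_one₀ (hint _) (Finset.prod_nonneg fun _ _ => f.nonneg _) ?_
      refine Finset.prod_le_one (fun _ _ => f.nonneg _) fun h _ => ?_
      rw [map_mul, map_pow]
      exact mul_le_one₀ (hnat _) (pow_nonneg (f.nonneg _) _) (pow_le_one₀ (f.nonneg _) hξ)
    have h2 : f (∏ h, (((J h).choose (k h) : K) *
        ((p h : K) - ξ * (q h : K)) ^ (J h - k h) * (q h : K) ^ (r h - J h))) ≤ E := by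
      rw [map_prod]
      refine le_trans (Finset.prod_le_prod (fun _ _ => f.nonneg _) fun h _ => ?_) (hE J hJ hG hk)
      rw [map_mul, map_mul, map_pow, map_pow]
      have a1 : f ((J h).choose (k h) : K) * f ((p h : K) - ξ * (q h : K)) ^ (J h - k h) ≤
          1 * δ h ^ (J h - k h) :=
        mul_le_mul (hnat _) (pow_le_pow_left₀ (f.nonneg _) (hu h) _)
          (pow_nonneg (f.nonneg _) _) zero_le_one
      have a2 : f (q h : K) ^ (r h - J h) ≤ 1 := pow_le_one₀ (f.nonneg _) (hint _)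
      calc _ ≤ f ((J h).choose (k h) : K) * f ((p h : K) - ξ * (q h : K)) ^ (J h - k h) * 1 :=
            mul_le_mul_of_nonneg_left a2 (mul_nonneg (f.nonneg _) (pow_nonneg (f.nonneg _) _))
        _ ≤ δ h ^ (J h - k h) := by
            rw [mul_one]
            linarith
    calc _ ≤ E * 1 := mul_le_mul h2 h1 (f.nonneg _) hE0
      _ = E := mul_one E
  · push Not at hk
    obtain ⟨h, hh⟩ := hk
    have : ∏ h, (((J h).choose (k h) : K) *
        ((p h : K) - ξ * (q h : K)) ^ (J h - k h) * (q h : K) ^ (r h - J h)) = 0 :=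
      Finset.prod_eq_zero (Finset.mem_univ h) (by
        rw [Nat.choose_eq_zero_of_lt hh]
        simp)
    rw [this, zero_mul, map_zero]
    exact hE0

end abs

end Pool.Agent.W180.RR
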