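import Pool.Agent.W180.RR.Asm

set_option autoImplicit false

/-!
The bound for the whole proximity function of rational points.
-/

namespace Pool.Agent.W180.RR

open Finset MvPolynomial NumberField IsDedekindDomain
open Pool.Agent.W180.OP Pool.Agent.W180.TP
open scoped LinearAlgebra.Projectivization

theorem total {n q N μ : ℕ} {κ : Type} [Fintype κ] (G : κ → MvPolynomial (Fin n) ℤ)
    (g : κ → ℕ) (hG : ∀ k, (G k).IsHomogeneous (g k)) (F : Fin q → MvPolynomial (Fin n) ℤ)
    (d : Fin q → ℕ) (hF : ∀ i, (F i).IsHomogeneous (d i)) (hN : 1 ≤ N)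
    (K : Type) [Field K] [NumberField K]
    (hrat : ∀ J : Finset (Fin q), J.card = N → ∀ (L : Type) [Field L] [Algebra K L]
      (x : Fin n → L), x ≠ 0 → (∀ j ∈ J, aeval x (F j) = 0) → (∀ k, aeval x (G k) = 0) →
        ∃ (y : Fin n → K) (c : L), x = c • fun b => algebraMap K L (y b))
    (hred : ∀ J : Finset (Fin q), J.card = N → ∀ a,
      ∀ Q ∈ (Ideal.span (Set.range (Sum.elim (fun j : J => bK K (F j.1))
        (fun k => bK K (G k))))).radical ^ μ,
      ∃ M : ℕ, X a ^ M * Q ∈ Ideal.span (Set.range (Sum.elim (fun j : J => bK K (F j.1))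
        (fun k => bK K (G k)))))
    (hemp : ∀ J : Finset (Fin q), J.card = N + 1 → ∀ (L : Type) [Field L] [Algebra K L]
      (x : Fin n → L), x ≠ 0 → (∀ j ∈ J, aeval x (F j) = 0) → ¬ (∀ k, aeval x (G k) = 0))
    (S : Finset ℕ) (hS : ∀ ℓ ∈ S, ℓ.Prime) (Δ : ℕ)
    (hΔ : ∀ I : Finset (Fin q), I.card ≤ (N - 1) * (S.card + 1) → ∑ i ∈ I, d i ≤ Δ)
    (ε : ℝ) (hε : 0 < ε) :
    ∃ C : ℝ, 0 ≤ C ∧ ∀ x : Fin n → ℤ, Prim x → (∀ k, eval x (G k) = 0) →
      (∀ i, eval x (F i) ≠ 0) →
      ∑ i, (d i * Real.log (hgt x) - Real.log (sfree S (eval x (F i)))) ≤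
        (Δ + μ * (2 + ε)) * Real.log (hgt x) + C := by
  classical
  have hone : ∀ x : Fin n → ℤ, (∀ i, eval x (F i) ≠ 0) → ∀ i,
      0 ≤ Real.log (sfree S (eval x (F i))) := fun x hx i =>
    Real.log_nonneg (sfree_pos S hS (hx i))
  by_cases hq : q ≤ (N - 1) * (S.card + 1)
  · refine ⟨0, le_rfl, fun x hx hGx hFx => ?_⟩
    have h1 := hΔ Finset.univ (by rw [Finset.card_univ, Fintype.card_fin]; exact hq)
    have hlog := Real.log_nonneg (hgt_ge_one hx.ne)
    have h2 : ∑ i, (d i * Real.log (hgt x) - Real.log (sfree S (eval x (F i)))) ≤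
        ∑ i, (d i : ℝ) * Real.log (hgt x) :=
      Finset.sum_le_sum fun i _ => by linarith [hone x hFx i]
    rw [← Finset.sum_mul] at h2
    have h3 : (∑ i, (d i : ℝ)) ≤ Δ := by exact_mod_cast h1
    have h4 := mul_le_mul_of_nonneg_right h3 hlog
    have h5 : 0 ≤ (μ : ℝ) * (2 + ε) * Real.log (hgt x) := by positivity
    linarith
  push Not at hq
  have hNq : N ≤ q := by
    have : N - 1 ≤ (N - 1) * (S.card + 1) := Nat.le_mul_of_pos_right _ (Nat.succ_pos _)
    omega
  obtain ⟨Y, C, hY, hfa, hC0, hC⟩ := fin_core G g hG F d hF hN hNq K hrat hred S hS ε hε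
  have hloc : ∀ o, ∃ C : ℝ, 0 ≤ C ∧ ∀ x : Fin n → K, x ≠ 0 → (∀ k, aeval x (bK K (G k)) = 0) →
      (∀ i, aeval x (bK K (F i)) ≠ 0) → ∀ J : Finset (Fin q), J.card = N + 1 → ∀ i ∈ J,
        (∀ j ∈ J, rho (Y.fa o) (d j) (bK K (F j)) x ≤ rho (Y.fa o) (d i) (bK K (F i)) x) →
        - Real.log (rho (Y.fa o) (d i) (bK K (F i)) x) ≤ C := by
    intro o
    obtain ⟨p, s, hs, hf⟩ := hfa o
    obtain ⟨C, hC0, hC⟩ := locN (fun k => bK K (G k)) g (fun k => bK_hom K (hG k))
      (fun i => bK K (F i)) d (fun i => bK_hom K (hF i)) 0 (N + 1) (by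
        intro J hJ a Q _
        have h1 : (X a : MvPolynomial (Fin n) K) ∈ (Ideal.span (Set.range (Sum.elim
            (fun j : J => bK K (F j.1)) (fun k => bK K (G k))))).radical := by
          refine mem_rad _ _ fun L _ _ x hx => ?_
          by_contra hxa
          rw [aeval_X] at hxa
          refine hemp J hJ L x (by rintro rfl; exact hxa rfl) (fun j hj => ?_) fun k => ?_
          · rw [← aeval_bK (K := K)]
            exact hx (Sum.inl ⟨j, hj⟩)
          · rw [← aeval_bK (K := K)]
            exact hx (Sum.inr k)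
        obtain ⟨M, hM⟩ := h1
        exact ⟨M, Ideal.mul_mem_right _ _ hM⟩) ∅ (by
        intro J hJ L _ _ x hx ha hb
        exfalso
        refine hemp J hJ L x hx (fun j hj => ?_) fun k => ?_
        · rw [← aeval_bK (K := K)]
          exact ha j hj
        · rw [← aeval_bK (K := K)]
          exact hb k) (Y.fa o) p s hs hf
    refine ⟨C, hC0, fun x hx hGx hFx J hJ i hi hmin => ?_⟩
    have h1 := hC x hx hGx hFx (fun y hy => absurd hy (Finset.notMem_empty _)) 0 le_rfl
      (fun y hy => absurd hy (Finset.notMem_empty _)) J hJ i hi hmin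
    rwa [mul_zero, add_zero] at h1
  choose C2 hC20 hC2 using hloc
  have hC2s : 0 ≤ ∑ o, C2 o := Finset.sum_nonneg fun o _ => hC20 o
  refine ⟨(S.card + 1) * (C + q * ∑ o, C2 o) + μ * C, by positivity, fun x hx hGx hFx => ?_⟩
  obtain ⟨U, hU0, hU1, hU2⟩ := hC x hx hGx hFx
  have hxK : ck K x ≠ 0 := ck_ne hx.ne
  have hGK : ∀ k, aeval (ck K x) (bK K (G k)) = 0 := fun k => by
    rw [aeval_ck, hGx k, Int.cast_zero]
  have hFK : ∀ i, aeval (ck K x) (bK K (F i)) ≠ 0 := fun i => by
    rw [aeval_ck]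
    exact_mod_cast hFx i
  set r : Option S → Fin q → ℝ := fun o j => rho (Y.fa o) (d j) (bK K (F j)) (ck K x) with hr
  choose I hI1 hI2 using fun o => exists_near (r o) (N - 1) (by omega)
  set II : Finset (Fin q) := Finset.univ.biUnion I with hII
  have hcard : II.card ≤ (N - 1) * (S.card + 1) := by
    refine (Finset.card_biUnion_le_card_mul _ _ (N - 1) fun o _ => (hI1 o).le).trans ?_
    rw [Finset.card_univ, Fintype.card_option, Fintype.card_coe, mul_comm]
  -- one place
  have hplace : ∀ o, ∑ i ∈ Finset.univ \ I o, max 0 (- Real.log (r o i)) ≤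
      μ * U o + (C + q * ∑ o, C2 o) := by
    intro o
    have hU0' := hU0 o
    rcases (Finset.univ \ I o).eq_empty_or_nonempty with he | he
    · rw [he, Finset.sum_empty]
      positivity
    obtain ⟨i1, hi1, hmin⟩ := Finset.exists_min_image (Finset.univ \ I o) (r o) he
    have hi1' : i1 ∉ I o := (Finset.mem_sdiff.1 hi1).2
    have hJ1 : (insert i1 (I o)).card = N := by
      rw [Finset.card_insert_of_notMem hi1', hI1 o]
      omega
    have h1 : max 0 (- Real.log (r o i1)) ≤ C + μ * U o := by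
      refine max_le (by positivity) ?_
      refine hU2 o (insert i1 (I o)) hJ1 i1 (Finset.mem_insert_self _ _) ?_
      intro j hj
      rcases Finset.mem_insert.1 hj with rfl | hj
      · exact le_rfl
      · exact hI2 o j hj i1 hi1'
    have h2 : ∀ i ∈ (Finset.univ \ I o).erase i1, max 0 (- Real.log (r o i)) ≤
        ∑ o, C2 o := by
      intro i hi
      have hi_1 : i ≠ i1 := Finset.ne_of_mem_erase hi
      have hi_2 := Finset.mem_of_mem_erase hi
      have hi_I : i ∉ I o := (Finset.mem_sdiff.1 hi_2).2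
      have hi3 : i ∉ insert i1 (I o) := by
        rw [Finset.mem_insert, not_or]
        exact ⟨hi_1, hi_I⟩
      refine max_le hC2s (le_trans ?_ (Finset.single_le_sum (f := C2) (fun o _ => hC20 o)
        (Finset.mem_univ o)))
      refine hC2 o (ck K x) hxK hGK hFK (insert i (insert i1 (I o))) ?_ i
        (Finset.mem_insert_self _ _) ?_
      · rw [Finset.card_insert_of_notMem hi3, hJ1]
      · intro j hj
        rcases Finset.mem_insert.1 hj with rfl | hj
        · exact le_rfl
        · rcases Finset.mem_insert.1 hj with rfl | hj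
          · exact hmin i hi_2
          · exact hI2 o j hj i hi_I
    rw [← Finset.add_sum_erase _ _ hi1]
    have h3 := Finset.sum_le_sum h2
    rw [Finset.sum_const, nsmul_eq_mul] at h3
    have h4 : (((Finset.univ \ I o).erase i1).card : ℝ) ≤ q := by
      have : ((Finset.univ \ I o).erase i1).card ≤ (Finset.univ : Finset (Fin q)).card :=
        Finset.card_le_card (Finset.subset_univ _)
      rw [Finset.card_univ, Fintype.card_fin] at this
      exact_mod_cast this
    have h5 := mul_le_mul_of_nonneg_right h4 hC2s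
    linarith
  have hlog := Real.log_nonneg (hgt_ge_one hx.ne)
  have hsr : ∀ i, ∑ o, - Real.log (r o i) =
      d i * Real.log (hgt x) - Real.log (sfree S (eval x (F i))) := fun i =>
    sum_rho S hS Y hY (d i) (F i) hx (hFx i)
  have h1 : ∑ i ∈ II, (d i * Real.log (hgt x) - Real.log (sfree S (eval x (F i)))) ≤
      Δ * Real.log (hgt x) := by
    have e1 : ∑ i ∈ II, (d i * Real.log (hgt x) - Real.log (sfree S (eval x (F i)))) ≤
        ∑ i ∈ II, (d i : ℝ) * Real.log (hgt x) :=
      Finset.sum_le_sum fun i _ => by linarith [hone x hFx i]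
    rw [← Finset.sum_mul] at e1
    refine e1.trans (mul_le_mul_of_nonneg_right ?_ hlog)
    exact_mod_cast hΔ II hcard
  have h2 : ∑ i ∈ Finset.univ \ II,
      (d i * Real.log (hgt x) - Real.log (sfree S (eval x (F i)))) ≤
      ∑ o, (μ * U o + (C + q * ∑ o, C2 o)) := by
    have e1 : ∑ i ∈ Finset.univ \ II,
        (d i * Real.log (hgt x) - Real.log (sfree S (eval x (F i)))) =
        ∑ o, ∑ i ∈ Finset.univ \ II, - Real.log (r o i) := by
      rw [Finset.sum_comm]
      exact Finset.sum_congr rfl fun i _ => (hsr i).symm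
    rw [e1]
    refine Finset.sum_le_sum fun o _ => le_trans ?_ (hplace o)
    calc ∑ i ∈ Finset.univ \ II, - Real.log (r o i) ≤
        ∑ i ∈ Finset.univ \ II, max 0 (- Real.log (r o i)) :=
          Finset.sum_le_sum fun i _ => le_max_right _ _
      _ ≤ _ := by
          refine Finset.sum_le_sum_of_subset_of_nonneg ?_ fun i _ _ => le_max_left _ _
          intro i hi
          rw [Finset.mem_sdiff] at hi ⊢
          exact ⟨hi.1, fun h => hi.2 (Finset.mem_biUnion.2 ⟨o, Finset.mem_univ _, h⟩)⟩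
  rw [Finset.sum_add_distrib, ← Finset.mul_sum, Finset.sum_const, Finset.card_univ,
    Fintype.card_option, Fintype.card_coe, nsmul_eq_mul] at h2
  push_cast at h2
  have h3 := mul_le_mul_of_nonneg_left hU1 (Nat.cast_nonneg (α := ℝ) μ)
  rw [← Finset.sum_sdiff (Finset.subset_univ II)]
  linarith

end Pool.Agent.W180.RR
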